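import Pool.Agent.Helper9.GW.Est

/-!
# Covering an interval by residue classes modulo the primes up to `k`, up to few exceptions

Project RW (gaps between primes). For `k ≤ H ≤ k (log k) ^ 2` some residue `b` has the property that
at most `C H (log log k) ^ 2 / ((log k) ^ 2 log log log k)` of the integers `1 ≤ m ≤ H` are such that
`b - m` has no prime factor up to `k`.
-/

set_option autoImplicit false

namespace Pool.Agent.Helper83.RWR

open Finset Nat
open Helper9.GW

/-- The most popular residue class. -/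
theorem exists_class1 (p : ℕ) (hp : 1 ≤ p) (B : Finset ℕ) :
    ∃ c : ℕ, (((B.filter (fun q => ¬ q ≡ c [MOD p])).card : ℕ) : ℝ) ≤
      (B.card : ℝ) * (1 - 1 / (p : ℝ)) := by
  have hmaps : ∀ q ∈ B, q % p ∈ Finset.range p := by
    intro q _
    rw [Finset.mem_range]
    exact Nat.mod_lt _ (by omega)
  have hne : (Finset.range p).Nonempty := ⟨0, by rw [Finset.mem_range]; omega⟩
  have hsum := Finset.card_eq_sum_card_fiberwise (s := B) (t := Finset.range p)
    (f := fun q => q % p) hmaps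
  obtain ⟨c, hc, hmax⟩ := Finset.exists_max_image (Finset.range p)
    (fun c => (B.filter (fun q => q % p = c)).card) hne
  have hle : B.card ≤ p * (B.filter (fun q => q % p = c)).card := by
    rw [hsum]
    refine (Finset.sum_le_sum fun d hd => hmax d hd).trans ?_
    rw [Finset.sum_const, Finset.card_range, smul_eq_mul]
  refine ⟨c, ?_⟩
  have hc' := Finset.mem_range.1 hc
  have hcl : (B.filter (fun q => ¬ q ≡ c [MOD p])) = B.filter (fun q => ¬ q % p = c) := by
    refine Finset.filter_congr fun q _ => ?_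
    unfold Nat.ModEq
    rw [Nat.mod_eq_of_lt hc']
  rw [hcl]
  have hsplit := Finset.card_filter_add_card_filter_not (s := B) (fun q => q % p = c)
  have hpr : (0 : ℝ) < p := by exact_mod_cast hp
  have h1 : (B.card : ℝ) ≤ (p : ℝ) * ((B.filter (fun q => q % p = c)).card : ℝ) := by
    exact_mod_cast hle
  have h2 : ((B.filter (fun q => q % p = c)).card : ℝ) +
      ((B.filter (fun q => ¬ q % p = c)).card : ℝ) = B.card := by exact_mod_cast hsplit
  have h3 : (B.card : ℝ) / p ≤ ((B.filter (fun q => q % p = c)).card : ℝ) := by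
    rw [div_le_iff₀ hpr]
    linarith
  have h4 : (B.card : ℝ) * (1 - 1 / (p : ℝ)) = B.card - (B.card : ℝ) / p := by ring
  rw [h4]
  linarith

/-- Greedy choice of residue classes. -/
theorem greedy1 (S : Finset ℕ) (hS : ∀ p ∈ S, 1 ≤ p) (B : Finset ℕ) :
    ∃ c : ℕ → ℕ, (((B.filter (fun q => ∀ p ∈ S, ¬ q ≡ c p [MOD p])).card : ℕ) : ℝ) ≤
      (B.card : ℝ) * ∏ p ∈ S, (1 - 1 / (p : ℝ)) := by
  classical
  induction S using Finset.induction_on with
  | empty =>
    refine ⟨fun _ => 0, ?_⟩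
    simp
  | insert ℓ S hℓ ih =>
    obtain ⟨c, hc⟩ := ih (fun m hm => hS m (Finset.mem_insert_of_mem hm))
    obtain ⟨d, hd⟩ := exists_class1 ℓ (hS ℓ (Finset.mem_insert_self _ _))
      (B.filter (fun q => ∀ m ∈ S, ¬ q ≡ c m [MOD m]))
    refine ⟨Function.update c ℓ d, ?_⟩
    have heq : B.filter (fun q => ∀ m ∈ insert ℓ S, ¬ q ≡ Function.update c ℓ d m [MOD m]) =
        (B.filter (fun q => ∀ m ∈ S, ¬ q ≡ c m [MOD m])).filter (fun q => ¬ q ≡ d [MOD ℓ]) := by
      ext q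
      simp only [Finset.mem_filter, Finset.mem_insert, forall_eq_or_imp, Function.update_self]
      constructor
      · rintro ⟨h1, h2, h3⟩
        refine ⟨⟨h1, fun m hm => ?_⟩, h2⟩
        have := h3 m hm
        rwa [Function.update_of_ne (by rintro rfl; exact hℓ hm)] at this
      · rintro ⟨⟨h1, h3⟩, h2⟩
        refine ⟨h1, h2, fun m hm => ?_⟩
        rw [Function.update_of_ne (by rintro rfl; exact hℓ hm)]
        exact h3 m hm
    rw [heq, Finset.prod_insert hℓ]
    have h3 : (1 : ℝ) ≤ ℓ := by exact_mod_cast hS ℓ (Finset.mem_insert_self _ _)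
    have h0 : (0 : ℝ) ≤ 1 - 1 / (ℓ : ℝ) := by
      rw [sub_nonneg, div_le_one (by linarith)]
      exact h3
    refine hd.trans ((mul_le_mul_of_nonneg_right hc h0).trans (le_of_eq ?_))
    ring

variable {k : ℕ} {l l2 l3 : ℝ}

/-- `H` between `k` and `k l ^ 2` -/
theorem smooth_le' (h : Par k l l2 l3) {H : ℕ} (hH : k ≤ H) :
    (((Icc 1 H).filter
      (fun n : ℕ => ∀ q ∈ n.primeFactors, q ≤ 2 ^ bb l l2 l3)).card : ℝ) ≤ H / l := by
  obtain ⟨e1, e2, e3, g1, g2, g3⟩ := h.facts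
  obtain ⟨b1, b2, b3⟩ := h.bb_facts
  have H3 : Real.exp l ≤ (H : ℝ) := by rw [← e1]; exact_mod_cast hH
  have p1 := h.p1
  have p2 := h.p2
  have h3 := h.h3
  have hlog2 : 0 < Real.log 2 := Real.log_pos (by norm_num)
  have hlog2' : Real.log 2 < 1 := by
    have := Real.log_two_lt_d9
    linarith
  set b := bb l l2 l3 with hb
  set A : ℝ := (l3 - Real.log 48) / 2 with hA
  have h48 := log48
  have hA0 : l3 / 4 ≤ A := by rw [hA]; linarith
  have hlogz : Real.log ((2 ^ b : ℕ) : ℝ) = b * Real.log 2 := by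
    push_cast
    rw [Real.log_pow]
  have hbl : 2 * l3 ≤ l * l3 / (16 * l2) := by
    rw [le_div_iff₀ (by positivity)]
    nlinarith
  have hb2 : (2 : ℝ) ≤ b := by nlinarith
  have hb2' : 2 ≤ b := by exact_mod_cast hb2
  have h4z : 4 ≤ 2 ^ b := by
    calc 4 = 2 ^ 2 := rfl
      _ ≤ 2 ^ b := Nat.pow_le_pow_right (by norm_num) hb2'
  have hH1 : 1 ≤ H := by
    have := h.kpos
    omega
  have hbound := Helper52.smooth_bound (A := A) (by linarith) (z := 2 ^ b) h4z
    (by rw [hlogz]; have : 4 * A ≤ 2 * l3 := by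
          rw [hA]; have : 0 ≤ Real.log 48 := Real.log_nonneg (by norm_num); linarith
        linarith) (x := H) hH1
  refine hbound.trans ?_
  rw [hlogz]
  have hH0 : (0 : ℝ) ≤ H := Nat.cast_nonneg H
  have hlogH : l ≤ Real.log H := by
    rw [Real.le_log_iff_exp_le (by exact_mod_cast hH1)]
    exact H3
  have hblog : 0 < (b : ℝ) * Real.log 2 := by positivity
  have hexp1 : Real.exp (12 * Real.exp (2 * A)) = Real.exp (l2 / 4) := by
    congr 1
    have : 2 * A = l3 - Real.log 48 := by rw [hA]; ring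
    rw [this, Real.exp_sub, ← e3, Real.exp_log (by norm_num)]
    ring
  have hexp2 : Real.exp (-(A * Real.log H / (b * Real.log 2))) ≤ Real.exp (-(2 * l2)) := by
    rw [Real.exp_le_exp, neg_le_neg_iff, le_div_iff₀ hblog]
    have h5 : 2 * l2 * (b * Real.log 2) ≤ l3 / 4 * l := by
      have h6 : 2 * l2 * (b * Real.log 2) ≤ 2 * l2 * (l * l3 / (8 * l2)) :=
        mul_le_mul_of_nonneg_left b2 (by positivity)
      have h7 : 2 * l2 * (l * l3 / (8 * l2)) = l3 / 4 * l := by
        field_simp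
        norm_num
      linarith
    calc 2 * l2 * (b * Real.log 2) ≤ l3 / 4 * l := h5
      _ ≤ A * Real.log H := by
        apply mul_le_mul hA0 hlogH (by positivity) (by linarith)
  rw [hexp1]
  have hfin : (1 + Real.exp (l2 / 4)) * Real.exp (-(2 * l2)) ≤ 1 / l := by
    have h8 : 1 / l = Real.exp (-l2) := by
      rw [Real.exp_neg, ← e2, one_div]
    rw [h8]
    have h9 : 1 + Real.exp (l2 / 4) ≤ Real.exp l2 := by
      have h10 : Real.exp l2 = Real.exp (l2 / 4) * Real.exp (3 * l2 / 4) := by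
        rw [← Real.exp_add]; congr 1; ring
      have h11 : 2 ≤ Real.exp (3 * l2 / 4) := by
        have := Real.add_one_le_exp (3 * l2 / 4)
        linarith
      have h12 : 1 ≤ Real.exp (l2 / 4) := Real.one_le_exp (by linarith)
      rw [h10]
      nlinarith
    calc (1 + Real.exp (l2 / 4)) * Real.exp (-(2 * l2)) ≤ Real.exp l2 * Real.exp (-(2 * l2)) :=
          mul_le_mul_of_nonneg_right h9 (Real.exp_pos _).le
      _ = Real.exp (-l2) := by rw [← Real.exp_add]; congr 1; ring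
  calc (1 + Real.exp (l2 / 4)) * H * Real.exp (-(A * Real.log H / (b * Real.log 2)))
      ≤ (1 + Real.exp (l2 / 4)) * H * Real.exp (-(2 * l2)) :=
        mul_le_mul_of_nonneg_left hexp2 (by positivity)
    _ = H * ((1 + Real.exp (l2 / 4)) * Real.exp (-(2 * l2))) := by ring
    _ ≤ H * (1 / l) := mul_le_mul_of_nonneg_left hfin hH0
    _ = H / l := by ring

theorem rough_le' (h : Par k l l2 l3) {H : ℕ} (hkH : k ≤ H) (hH : (H : ℝ) ≤ k * l ^ 2) :
    ((∑ m ∈ Icc 1 (H / zz l), Nat.primeCounting (H / m) : ℕ) : ℝ) ≤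
      24 * H * l2 / l := by
  obtain ⟨e1, e2, e3, g1, g2, g3⟩ := h.facts
  have H2 : (H : ℝ) ≤ Real.exp l * l ^ 2 := by rw [← e1]; exact hH
  have H3 : Real.exp l ≤ (H : ℝ) := by rw [← e1]; exact_mod_cast hkH
  obtain ⟨z1, z2, z3⟩ := h.zz_facts
  have p1 := h.p1
  have p2 := h.p2
  have hl : 1 ≤ l := by linarith
  set z := zz l with hz
  have hE : 1 ≤ Real.exp (l / 2) := Real.one_le_exp (by linarith)
  have hz0 : (0 : ℝ) < z := by linarith
  have hz0' : 0 < z := by exact_mod_cast hz0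
  have hH0 : (0 : ℝ) < H := lt_of_lt_of_le (Real.exp_pos _) H3
  have hterm : ∀ m ∈ Icc 1 (H / z), (Nat.primeCounting (H / m) : ℝ) ≤
      4 * H / l * (1 / (m : ℝ)) := by
    intro m hm
    rw [mem_Icc] at hm
    have hm0 : (0 : ℝ) < m := by exact_mod_cast hm.1
    have hmz : (z : ℝ) ≤ (H : ℝ) / m := by
      rw [le_div_iff₀ hm0]
      have := (Nat.le_div_iff_mul_le hz0').1 hm.2
      have h5 : z * m ≤ H := by rw [mul_comm]; exact this
      exact_mod_cast h5
    have h6 := h.cheb ((H : ℝ) / m) (z1.trans hmz)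
    rw [Nat.floor_div_eq_div] at h6
    have ht : 0 < (H : ℝ) / m := by positivity
    have hlog : l / 2 ≤ Real.log ((H : ℝ) / m) := by
      rw [Real.le_log_iff_exp_le ht]
      exact z1.trans hmz
    refine h6.trans ?_
    have hlpos : 0 < Real.log ((H : ℝ) / m) := by linarith
    rw [div_le_iff₀ hlpos]
    have h7 : 4 * (H : ℝ) / l * (1 / m) * (l / 2) = 2 * (H / m) := by
      field_simp
      norm_num
    calc 2 * ((H : ℝ) / m) = 4 * (H : ℝ) / l * (1 / m) * (l / 2) := h7.symm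
      _ ≤ _ := mul_le_mul_of_nonneg_left hlog (by positivity)
  push_cast
  refine (sum_le_sum hterm).trans ?_
  rw [← mul_sum]
  have hN : 1 ≤ H / z := by
    rw [Nat.le_div_iff_mul_le hz0', one_mul]
    have h5 : (z : ℝ) ≤ H := by
      refine z2.trans (le_trans ?_ H3)
      rw [div_le_iff₀ (by positivity)]
      nlinarith [Real.exp_pos l, one_le_pow₀ hl (n := 2)]
    exact_mod_cast h5
  have hharm : ∑ m ∈ Icc 1 (H / z), 1 / (m : ℝ) ≤ 1 + Real.log ((H / z : ℕ) : ℝ) := by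
    have := harmonic_le_one_add_log (H / z)
    rw [harmonic_eq_sum_Icc] at this
    push_cast at this
    simpa [one_div] using this
  have hlogN : Real.log ((H / z : ℕ) : ℝ) ≤ 1 + 4 * l2 := by
    have h5 : ((H / z : ℕ) : ℝ) ≤ 2 * l ^ 4 := by
      refine (Nat.cast_div_le).trans ?_
      rw [div_le_iff₀ hz0]
      calc (H : ℝ) ≤ Real.exp l * l ^ 2 := H2
        _ = 2 * l ^ 4 * (Real.exp l / (2 * l ^ 2)) := by
          field_simp
        _ ≤ _ := mul_le_mul_of_nonneg_left z3 (by positivity)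
    have hN0 : (0 : ℝ) < ((H / z : ℕ) : ℝ) := by exact_mod_cast hN
    refine (Real.log_le_log hN0 h5).trans ?_
    rw [Real.log_mul (by norm_num) (by positivity), Real.log_pow, h.hl2]
    have := Real.log_two_lt_d9
    push_cast
    linarith
  calc 4 * (H : ℝ) / l * ∑ m ∈ Icc 1 (H / z), 1 / (m : ℝ)
      ≤ 4 * (H : ℝ) / l * (6 * l2) := by
        refine mul_le_mul_of_nonneg_left ?_ (by positivity)
        have : (1 : ℝ) + (1 + 4 * l2) ≤ 6 * l2 := by nlinarith
        linarith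
    _ = 24 * H * l2 / l := by ring

theorem free_le' (h : Par k l l2 l3) {H : ℕ} (hkH : k ≤ H) (hH : (H : ℝ) ≤ k * l ^ 2) :
    ((free (2 ^ bb l l2 l3) (zz l) H).card : ℝ) ≤ 25 * H * l2 / l := by
  obtain ⟨e1, e2, e3, g1, g2, g3⟩ := h.facts
  obtain ⟨b1, b2, b3⟩ := h.bb_facts
  obtain ⟨z1, z2, z3⟩ := h.zz_facts
  have p1 := h.p1
  have hE : 1 ≤ Real.exp (l / 2) := Real.one_le_exp (by linarith)
  have hz0 : (0 : ℝ) < zz l := by linarith
  have hz0' : 1 ≤ zz l := by exact_mod_cast hz0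
  have h2b : 2 ≤ 2 ^ bb l l2 l3 := by
    calc 2 = 2 ^ 1 := rfl
      _ ≤ _ := Nat.pow_le_pow_right (by norm_num) b1
  have h1 := card_free_le (H := H) h2b hz0'
  have h2 : ((free (2 ^ bb l l2 l3) (zz l) H).card : ℝ) ≤
      (((Icc 1 H).filter
      (fun n : ℕ => ∀ q ∈ n.primeFactors, q ≤ 2 ^ bb l l2 l3)).card : ℝ) +
      ((∑ m ∈ Icc 1 (H / zz l), Nat.primeCounting (H / m) : ℕ) : ℝ) := by
    exact_mod_cast h1
  have h3 := smooth_le' h hkH
  have h4 := rough_le' h hkH hH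
  have h5 : (H : ℝ) / l ≤ H * l2 / l := by
    refine div_le_div_of_nonneg_right ?_ p1.le
    have : (0 : ℝ) ≤ H := Nat.cast_nonneg _
    nlinarith
  calc _ ≤ _ := h2
    _ ≤ H / l + 24 * H * l2 / l := add_le_add h3 h4
    _ ≤ H * l2 / l + 24 * H * l2 / l := by linarith
    _ = _ := by ring

/-- the `1 ≤ m ≤ H` with `m ≢ b` modulo every prime up to `k` -/
def surv (k b H : ℕ) : Finset ℕ :=
  (Icc 1 H).filter (fun m => ∀ p ∈ Helper52.pr 0 k, ¬ m ≡ b [MOD p])

/-- the covering lemma -/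
theorem cov (h : Par k l l2 l3) {H : ℕ} (hkH : k ≤ H) (hH : (H : ℝ) ≤ k * l ^ 2) :
    ∃ b : ℕ, ((surv k b H).card : ℝ) ≤ 400 * H * l2 ^ 2 / (l ^ 2 * l3) := by
  classical
  obtain ⟨e1, e2, e3, g1, g2, g3⟩ := h.facts
  obtain ⟨b1, b2, b3⟩ := h.bb_facts
  obtain ⟨z1, z2, z3⟩ := h.zz_facts
  have p1 := h.p1
  have p2 := h.p2
  have h3 := h.h3
  have hl : 1 ≤ l := by linarith
  have h2b : 2 ≤ 2 ^ bb l l2 l3 := by
    calc 2 = 2 ^ 1 := rfl
      _ ≤ _ := Nat.pow_le_pow_right (by norm_num) b1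
  have hzk : zz l ≤ k := by
    have h5 : (zz l : ℝ) ≤ k := by
      refine z2.trans ?_
      rw [e1, div_le_iff₀ (by positivity)]
      nlinarith [Real.exp_pos l, one_le_pow₀ hl (n := 2)]
    exact_mod_cast h5
  have hbz : 2 ^ bb l l2 l3 ≤ zz l := by
    have h5 : ((2 ^ bb l l2 l3 : ℕ) : ℝ) ≤ zz l := by
      refine le_trans ?_ z1
      rw [← Real.log_le_iff_le_exp (by positivity)]
      push_cast
      rw [Real.log_pow]
      refine b2.trans ?_
      rw [div_le_div_iff₀ (by positivity) (by norm_num)]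
      nlinarith
    exact_mod_cast h5
  set b := bb l l2 l3 with hb
  set S := Helper52.pr 0 (2 ^ b) with hS
  obtain ⟨c, hc⟩ := greedy1 S (fun p hp => (Helper52.mem_pr.1 hp).1) (free (2 ^ b) (zz l) H)
  -- the residue
  have hcop : Set.Pairwise (↑(Helper52.pr 0 k) : Set ℕ)
      (Function.onFun Nat.Coprime (id : ℕ → ℕ)) := by
    intro i hi j hj hij
    exact (Nat.coprime_primes (Helper52.mem_pr.1 hi).2.2 (Helper52.mem_pr.1 hj).2.2).2 hij
  obtain ⟨r, hr⟩ := Nat.chineseRemainderOfFinset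
    (fun p => if p ≤ 2 ^ b then c p else 0) (id : ℕ → ℕ)
    (Helper52.pr 0 k) (fun i hi => (Helper52.mem_pr.1 hi).2.2.ne_zero) hcop
  refine ⟨r, ?_⟩
  have hsub : surv k r H ⊆
      (free (2 ^ b) (zz l) H).filter (fun q => ∀ p ∈ S, ¬ q ≡ c p [MOD p]) := by
    intro m hm
    unfold surv at hm
    rw [mem_filter] at hm
    obtain ⟨hm1, hm2⟩ := hm
    rw [mem_filter]
    constructor
    · unfold free
      rw [mem_filter]
      refine ⟨hm1, fun ℓ hℓ hd => ?_⟩
      obtain ⟨h4, h5, h6⟩ := (mem_medium h2b).1 hℓ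
      refine hm2 ℓ (Helper52.mem_pr.2 ⟨h4.pos, h6.trans hzk, h4⟩) ?_
      have h7 := hr ℓ (Helper52.mem_pr.2 ⟨h4.pos, h6.trans hzk, h4⟩)
      rw [if_neg (by omega)] at h7
      exact ((Nat.modEq_zero_iff_dvd).2 hd).trans h7.symm
    · intro p hp hmp
      obtain ⟨h4, h5, h6⟩ := Helper52.mem_pr.1 hp
      refine hm2 p (Helper52.mem_pr.2 ⟨h4, by omega, h6⟩) ?_
      have h7 := hr p (Helper52.mem_pr.2 ⟨h4, by omega, h6⟩)
      rw [if_pos h5] at h7
      exact hmp.trans h7.symm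
  have h1 : ((surv k r H).card : ℝ) ≤
      (((free (2 ^ b) (zz l) H).filter (fun q => ∀ p ∈ S, ¬ q ≡ c p [MOD p])).card : ℝ) := by
    exact_mod_cast card_le_card hsub
  have h2 := free_le' h hkH hH
  rw [← hb] at h2
  have h4 := Helper52.prod_upper (b := b) b1
  rw [← hS] at h4
  have hH0 : (0 : ℝ) ≤ H := Nat.cast_nonneg H
  have hblog : 0 < (b : ℝ) * Real.log 2 := lt_of_lt_of_le (by positivity) b3
  have h5 : ∏ p ∈ S, (1 - 1 / (p : ℝ)) ≤ 16 * l2 / (l * l3) := by
    refine h4.trans ?_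
    have h6 : 16 * l2 / (l * l3) = 1 / (l * l3 / (16 * l2)) := by
      rw [one_div_div]
    rw [h6]
    exact one_div_le_one_div_of_le (by positivity) b3
  have hprod0 : 0 ≤ ∏ p ∈ S, (1 - 1 / (p : ℝ)) := by
    refine prod_nonneg fun p hp => ?_
    have h6 : (1 : ℝ) ≤ p := by exact_mod_cast (Helper52.mem_pr.1 hp).1
    rw [sub_nonneg, div_le_one (by linarith)]
    exact h6
  calc _ ≤ _ := h1
    _ ≤ _ := hc
    _ ≤ 25 * H * l2 / l * (16 * l2 / (l * l3)) :=
        mul_le_mul h2 h5 hprod0 (by positivity)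
    _ = 400 * H * l2 ^ 2 / (l ^ 2 * l3) := by
      field_simp
      ring

end Pool.Agent.Helper83.RWR
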