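import Pool.Agent.Helper83.RWR.Short

/-!
# Long prime gaps in terms of consecutive primes
-/

set_option autoImplicit false

namespace Pool.Agent.Helper83.RWR

open Finset Nat Filter

/-- comparison of the rates at `x` and at `t` with `x / 4 ≤ t ≤ 4 x` -/
theorem rho_comp : ∀ᶠ x : ℝ in atTop, 0 < Real.log x ∧ 0 < rho x ∧ ∀ t : ℝ, x / 4 ≤ t → t ≤ 4 * x →
    0 < Real.log t ∧ 0 < rho t ∧ Real.log t * rho t ≤ 64 * (Real.log x * rho x) := by
  have t1 : Tendsto (fun x : ℝ => Real.log x) atTop atTop := Real.tendsto_log_atTop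
  have t2 : Tendsto (fun x : ℝ => Real.log (Real.log x)) atTop atTop :=
    Real.tendsto_log_atTop.comp t1
  have t3 : Tendsto (fun x : ℝ => Real.log (Real.log (Real.log x))) atTop atTop :=
    Real.tendsto_log_atTop.comp t2
  have t4 : Tendsto (fun x : ℝ => Real.log (Real.log (Real.log (Real.log x)))) atTop atTop :=
    Real.tendsto_log_atTop.comp t3
  filter_upwards [eventually_ge_atTop 1, t1.eventually_ge_atTop 10, t2.eventually_ge_atTop 10,
    t3.eventually_ge_atTop 10, t4.eventually_ge_atTop 10] with x hx1 g1 g2 g3 g4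
  set X := Real.log x with hX
  set l := Real.log X with hl
  set l2 := Real.log l with hl2
  set l3 := Real.log l2 with hl3
  have hlog2 := Real.log_two_lt_d9
  have hlog4 : Real.log 4 ≤ 2 := by
    have : Real.log 4 = 2 * Real.log 2 := by
      rw [show (4 : ℝ) = 2 ^ 2 by norm_num, Real.log_pow]; norm_num
    linarith
  have hrho : rho x = l ^ 2 * l3 / l2 ^ 2 := by
    unfold rho
    rw [← hX, ← hl, ← hl2, ← hl3]
  refine ⟨by linarith, by rw [hrho]; positivity, fun t ht1 ht2 => ?_⟩
  have ht0 : 0 < t := by linarith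
  have a1 : X / 2 ≤ Real.log t := by
    have h := Real.log_le_log (by linarith) ht1
    rw [Real.log_div (by linarith) (by norm_num)] at h
    linarith
  have a2 : Real.log t ≤ 2 * X := by
    have h := Real.log_le_log ht0 ht2
    rw [Real.log_mul (by norm_num) (by linarith)] at h
    linarith
  have b1 : l / 2 ≤ Real.log (Real.log t) := by
    have h := Real.log_le_log (by linarith) a1
    rw [Real.log_div (by linarith) (by norm_num)] at h
    linarith
  have b2 : Real.log (Real.log t) ≤ 2 * l := by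
    have h := Real.log_le_log (by linarith) a2
    rw [Real.log_mul (by norm_num) (by linarith)] at h
    linarith
  have c1 : l2 / 2 ≤ Real.log (Real.log (Real.log t)) := by
    have h := Real.log_le_log (by linarith) b1
    rw [Real.log_div (by linarith) (by norm_num)] at h
    linarith
  have c2 : Real.log (Real.log (Real.log t)) ≤ 2 * l2 := by
    have h := Real.log_le_log (by linarith) b2
    rw [Real.log_mul (by norm_num) (by linarith)] at h
    linarith
  have d1 : l3 / 2 ≤ Real.log (Real.log (Real.log (Real.log t))) := by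
    have h := Real.log_le_log (by linarith) c1
    rw [Real.log_div (by linarith) (by norm_num)] at h
    linarith
  have d2 : Real.log (Real.log (Real.log (Real.log t))) ≤ 2 * l3 := by
    have h := Real.log_le_log (by linarith) c2
    rw [Real.log_mul (by norm_num) (by linarith)] at h
    linarith
  have p1 : 0 < Real.log t := by linarith
  have p2 : 0 < Real.log (Real.log t) := by linarith
  have p3 : 0 < Real.log (Real.log (Real.log t)) := by linarith
  have p4 : 0 < Real.log (Real.log (Real.log (Real.log t))) := by linarith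
  refine ⟨p1, by unfold rho; positivity, ?_⟩
  have h1 : rho t ≤ (2 * l) ^ 2 * (2 * l3) / (l2 / 2) ^ 2 := by
    unfold rho
    apply div_le_div₀ (by positivity)
    · exact mul_le_mul (pow_le_pow_left₀ p2.le b2 2) d2 p4.le (by positivity)
    · positivity
    · exact pow_le_pow_left₀ (by linarith) c1 2
  have h2 : (2 * l) ^ 2 * (2 * l3) / (l2 / 2) ^ 2 = 32 * rho x := by
    rw [hrho]
    field_simp
    ring
  rw [h2] at h1
  have h3 : 0 < rho x := by rw [hrho]; positivity
  calc Real.log t * rho t ≤ (2 * X) * (32 * rho x) := by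
        apply mul_le_mul a2 h1 (by unfold rho; positivity) (by linarith)
    _ = 64 * (X * rho x) := by ring

/-- the primes, indexed from `0` -/
noncomputable def p (n : ℕ) : ℕ := Nat.nth Nat.Prime n

/-- `√p_{n+1} - √p_n` -/
noncomputable def d (n : ℕ) : ℝ := √(p (n + 1)) - √(p n)

theorem fin2 (hcore : CoreD) : ∃ c : ℝ, 0 < c ∧
    (∀ᶠ y : ℝ in atTop, ∀ x : ℝ, y ≤ x →
      ∃ n : ℕ, max x (p n) + c * (Real.log y * rho y) ≤ min (x + y) (p (n + 1)) ∧
        c * (Real.log y * rho y) / √x ≤ d n) ∧
    (∃ᶠ n : ℕ in atTop, c * (Real.log (p n) * rho (p n)) / √(p n) ≤ d n) ∧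
    (∀ᶠ x : ℝ in atTop, ∃ n : ℕ, (p (n + 1) : ℝ) ≤ x ∧
      c * (Real.log x * rho x) ≤ (p (n + 1) : ℝ) - p n) := by
  obtain ⟨c, hc, hs⟩ := shortE hcore
  -- part (1) with constant `c / 4`, and with more information
  have key : ∀ᶠ y : ℝ in atTop, 0 < Real.log y ∧ 0 < rho y ∧ ∀ x : ℝ, y ≤ x →
      ∃ n : ℕ, max x (p n) + c * (Real.log y * rho y) ≤ min (x + y) (p (n + 1)) ∧
        c / 4 * (Real.log y * rho y) / √x ≤ d n ∧ x ≤ 2 * p n ∧
        (p (n + 1) : ℝ) ≤ 2 * p n ∧ (p n : ℝ) ≤ x + y ∧
        c * (Real.log y * rho y) ≤ (p (n + 1) : ℝ) - p n := by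
    filter_upwards [hs, eventually_ge_atTop 10] with y hy hy10
    obtain ⟨hl0, hr0, hy⟩ := hy
    refine ⟨hl0, hr0, fun x hyx => ?_⟩
    obtain ⟨N, h, h1, h2, h3, h4⟩ := hy x hyx
    have hN10 : 10 ≤ N := by
      have : (10 : ℝ) ≤ N := by linarith
      exact_mod_cast this
    obtain ⟨n, hn1, hn2, hn3, hn4⟩ := consecutive2 hN10 h3
    change N ≤ 2 * p n at hn1
    change p n ≤ N at hn2
    change N + h < p (n + 1) at hn3
    change p (n + 1) ≤ 2 * p n at hn4
    have hn1' : (N : ℝ) ≤ 2 * p n := by exact_mod_cast hn1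
    have hn2' : (p n : ℝ) ≤ N := by exact_mod_cast hn2
    have hn3' : (N : ℝ) + h ≤ p (n + 1) := by exact_mod_cast hn3.le
    have hn4' : (p (n + 1) : ℝ) ≤ 2 * p n := by exact_mod_cast hn4
    have hh0 : (0 : ℝ) ≤ h := Nat.cast_nonneg h
    have hgap : c * (Real.log y * rho y) ≤ (p (n + 1) : ℝ) - p n := by linarith
    have hpn : (0 : ℝ) < p n := by linarith
    refine ⟨n, ?_, ?_, by linarith, hn4', by linarith, hgap⟩
    · refine le_trans (add_le_add (max_le h1 hn2') h4) ?_
      exact le_min h2 hn3'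
    · -- `d n`
      have hx0 : 0 < x := by linarith
      have hp1 : (p (n + 1) : ℝ) ≤ 4 * x := by linarith
      have hs1 : √(p (n + 1) : ℝ) ≤ 2 * √x := by
        have h5 : √(p (n + 1) : ℝ) ≤ √(4 * x) := Real.sqrt_le_sqrt hp1
        have h6 : √(4 * x) = 2 * √x := by
          rw [show (4 : ℝ) * x = 2 ^ 2 * x by ring, Real.sqrt_mul (by norm_num),
            Real.sqrt_sq (by norm_num)]
        linarith
      have hs2 : √(p n : ℝ) ≤ 2 * √x := by
        refine le_trans (Real.sqrt_le_sqrt ?_) hs1
        linarith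
      have hsx : 0 < √x := Real.sqrt_pos.2 hx0
      have hmul : d n * (√(p (n + 1) : ℝ) + √(p n : ℝ)) = (p (n + 1) : ℝ) - p n := by
        unfold d
        have e1 := Real.mul_self_sqrt (show (0 : ℝ) ≤ p (n + 1) by positivity)
        have e2 := Real.mul_self_sqrt (show (0 : ℝ) ≤ p n by positivity)
        nlinarith
      have hd0 : 0 ≤ d n := by
        unfold d
        rw [sub_nonneg]
        apply Real.sqrt_le_sqrt
        linarith
      rw [div_le_iff₀ hsx]
      have h5 : d n * (√(p (n + 1) : ℝ) + √(p n : ℝ)) ≤ d n * (4 * √x) :=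
        mul_le_mul_of_nonneg_left (by linarith) hd0
      have h6 : c / 4 * (Real.log y * rho y) = (c * (Real.log y * rho y)) / 4 := by ring
      rw [h6]
      linarith
  refine ⟨c / 1024, by positivity, ?_, ?_, ?_⟩
  · filter_upwards [key, eventually_ge_atTop 1] with y hy hy1 x hyx
    obtain ⟨hl0, hr0, hy⟩ := hy
    obtain ⟨n, h1, h2, -⟩ := hy x hyx
    have h0 : 0 ≤ Real.log y * rho y := by positivity
    refine ⟨n, le_trans ?_ h1, le_trans ?_ h2⟩
    · have : c / 1024 * (Real.log y * rho y) ≤ c * (Real.log y * rho y) :=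
        mul_le_mul_of_nonneg_right (by linarith) h0
      linarith
    · have hsx : 0 < √x := Real.sqrt_pos.2 (by linarith)
      exact div_le_div_of_nonneg_right (mul_le_mul_of_nonneg_right (by linarith) h0) hsx.le
  · rw [frequently_atTop]
    intro a
    have hev := (key.and rho_comp).and (eventually_ge_atTop ((2 : ℝ) * p a + 10))
    obtain ⟨x, ⟨⟨-, -, hk⟩, hlx, hrx, hcomp⟩, hxa⟩ := hev.exists
    obtain ⟨n, h1, h2, h3, h4, h5, h6⟩ := hk x le_rfl
    have hx0 : 0 < x := by
      have : (0 : ℝ) ≤ p a := Nat.cast_nonneg _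
      linarith
    refine ⟨n, ?_, ?_⟩
    · -- `a ≤ n`
      by_contra hcon
      push Not at hcon
      have h7 : p n ≤ p a := (Nat.nth_strictMono Nat.infinite_setOfPred_prime).monotone hcon.le
      have h8 : (p n : ℝ) ≤ p a := by exact_mod_cast h7
      linarith
    · obtain ⟨q1, q2, q3⟩ := hcomp (p n) (by linarith) (by linarith)
      refine le_trans ?_ h2
      have hpn : (0 : ℝ) < p n := by linarith
      have hsp : 0 < √(p n : ℝ) := Real.sqrt_pos.2 hpn
      have hsx : 0 < √x := Real.sqrt_pos.2 hx0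
      have hsx2 : √x ≤ 2 * √(p n : ℝ) := by
        have h5 : √x ≤ √(4 * (p n : ℝ)) := Real.sqrt_le_sqrt (by linarith)
        have h6 : √(4 * (p n : ℝ)) = 2 * √(p n : ℝ) := by
          rw [show (4 : ℝ) * (p n : ℝ) = 2 ^ 2 * (p n : ℝ) by ring, Real.sqrt_mul (by norm_num),
            Real.sqrt_sq (by norm_num)]
        linarith
      rw [div_le_div_iff₀ hsp hsx]
      have hA : 0 ≤ Real.log x * rho x := by positivity
      have hB : 0 ≤ Real.log (p n) * rho (p n) := by positivity
      calc c / 1024 * (Real.log (p n) * rho (p n)) * √x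
          ≤ c / 1024 * (64 * (Real.log x * rho x)) * (2 * √(p n : ℝ)) := by
            apply mul_le_mul _ hsx2 hsx.le (by positivity)
            exact mul_le_mul_of_nonneg_left q3 (by positivity)
        _ = c / 8 * (Real.log x * rho x) * √(p n : ℝ) := by ring
        _ ≤ c / 4 * (Real.log x * rho x) * √(p n : ℝ) := by
            apply mul_le_mul_of_nonneg_right _ hsp.le
            exact mul_le_mul_of_nonneg_right (by linarith) hA
  · have t4 : Tendsto (fun x : ℝ => x / 4) atTop atTop := tendsto_id.atTop_div_const (by norm_num)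
    filter_upwards [t4.eventually key, t4.eventually rho_comp,
      eventually_ge_atTop 1] with x hk hcomp hx1
    obtain ⟨-, -, hk⟩ := hk
    obtain ⟨hlx, hrx, hcomp⟩ := hcomp
    obtain ⟨n, h1, h2, h3, h4, h5, h6⟩ := hk (x / 4) le_rfl
    refine ⟨n, by linarith, le_trans ?_ h6⟩
    obtain ⟨q1, q2, q3⟩ := hcomp x (by linarith) (by linarith)
    calc c / 1024 * (Real.log x * rho x) ≤ c / 1024 * (64 * (Real.log (x / 4) * rho (x / 4))) :=
          mul_le_mul_of_nonneg_left q3 (by positivity)
      _ = (c / 16) * (Real.log (x / 4) * rho (x / 4)) := by ring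
      _ ≤ c * (Real.log (x / 4) * rho (x / 4)) := by
        apply mul_le_mul_of_nonneg_right (by linarith) (by positivity)

end Pool.Agent.Helper83.RWR
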