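import Pool.Agent.Helper83.RWR.Step
import Pool.Agent.Helper9.GW.Final

/-!
# Long prime gaps from the core theorem
-/

set_option autoImplicit false

namespace Pool.Agent.Helper83.RWR

open Finset Nat Filter

/-- `log t (log log t) ^ 2 log log log log t / (log log log t) ^ 2` -/
noncomputable def rate (t : ℝ) : ℝ :=
  Real.log t * Real.log (Real.log t) ^ 2 * Real.log (Real.log (Real.log (Real.log t))) /
    Real.log (Real.log (Real.log t)) ^ 2

theorem rate_le {t k l l2 l3 : ℝ} (hl : Real.log k = l) (hl2 : Real.log l = l2)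
    (hl3 : Real.log l2 = l3) (hk : 0 < k) (h1 : k ≤ Real.log t) (h2 : Real.log t ≤ 64 * k)
    (p1 : 5 ≤ l) (p2 : 1 ≤ l2) (p3 : 1 ≤ l3) :
    rate t ≤ 512 * (k * l ^ 2 * l3 / l2 ^ 2) ∧ 0 ≤ rate t := by
  have hlog2 : Real.log 2 ≤ 1 := by
    have := Real.log_two_lt_d9
    linarith
  have hlog64 : Real.log 64 ≤ 5 := by
    have e : Real.log 64 = 6 * Real.log 2 := by
      rw [show (64 : ℝ) = 2 ^ 6 by norm_num, Real.log_pow]; norm_num
    have := Real.log_two_lt_d9
    linarith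
  have a1 : l ≤ Real.log (Real.log t) := by
    rw [← hl]; exact Real.log_le_log hk h1
  have a2 : Real.log (Real.log t) ≤ 2 * l := by
    have h := Real.log_le_log (by linarith) h2
    rw [Real.log_mul (by norm_num) hk.ne', hl] at h
    linarith
  have b1 : l2 ≤ Real.log (Real.log (Real.log t)) := by
    rw [← hl2]; exact Real.log_le_log (by linarith) a1
  have b2 : Real.log (Real.log (Real.log t)) ≤ 2 * l2 := by
    have h := Real.log_le_log (by linarith) a2
    rw [Real.log_mul (by norm_num) (by linarith), hl2] at h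
    linarith
  have c1 : l3 ≤ Real.log (Real.log (Real.log (Real.log t))) := by
    rw [← hl3]; exact Real.log_le_log (by linarith) b1
  have c2 : Real.log (Real.log (Real.log (Real.log t))) ≤ 2 * l3 := by
    have h := Real.log_le_log (by linarith) b2
    rw [Real.log_mul (by norm_num) (by linarith), hl3] at h
    linarith
  have g1 : 0 < Real.log (Real.log t) := by linarith
  have g2 : 0 < Real.log (Real.log (Real.log t)) := by linarith
  have g3 : 0 < Real.log (Real.log (Real.log (Real.log t))) := by linarith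
  have g0 : 0 < Real.log t := by linarith
  refine ⟨?_, ?_⟩
  · unfold rate
    have e : 512 * (k * l ^ 2 * l3 / l2 ^ 2) = (64 * k) * (2 * l) ^ 2 * (2 * l3) / l2 ^ 2 := by ring
    rw [e]
    apply div_le_div₀ (by positivity)
    · apply mul_le_mul _ c2 g3.le (by positivity)
      apply mul_le_mul h2 _ (by positivity) (by positivity)
      exact pow_le_pow_left₀ g1.le a2 2
    · positivity
    · exact pow_le_pow_left₀ (by linarith) b1 2
  · unfold rate
    positivity

theorem gaps (hcore : CoreStmt) : ∃ c : ℝ, 0 < c ∧ ∀ᶠ L : ℕ in atTop, ∃ j : ℕ,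
    2 ^ (L - 3) ≤ Nat.nth Nat.Prime j ∧ Nat.nth Nat.Prime j < 2 ^ L ∧
    Nat.nth Nat.Prime (j + 1) ≤ 2 * Nat.nth Nat.Prime j ∧
    0 ≤ rate (Nat.nth Nat.Prime j) ∧
    c * rate (Nat.nth Nat.Prime j) ≤
      (Nat.nth Nat.Prime (j + 1) : ℝ) - Nat.nth Nat.Prime j := by
  obtain ⟨c0, hc0, L0, hL0⟩ := hcore
  set c1 : ℝ := min 1 (c0 / 400) with hc1
  have hc1pos : 0 < c1 := lt_min one_pos (by positivity)
  have hc1a : c1 ≤ 1 := min_le_left _ _
  have hc1b : 400 * c1 ≤ c0 := by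
    have := min_le_right 1 (c0 / 400)
    rw [← hc1] at this
    linarith
  refine ⟨c1 / 512, by positivity, ?_⟩
  have hk : Tendsto (fun L : ℕ => L / 32) atTop atTop :=
    Nat.tendsto_div_const_atTop (by norm_num)
  have hcast : Tendsto (fun k : ℕ => (k : ℝ)) atTop atTop := tendsto_natCast_atTop_atTop
  have t1 : Tendsto (fun k : ℕ => Real.log k) atTop atTop := Real.tendsto_log_atTop.comp hcast
  filter_upwards [hk.eventually Helper9.GW.par_eventually, eventually_ge_atTop L0,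
    eventually_ge_atTop 400, (t1.comp hk).eventually_ge_atTop (1 / c1)] with L hpar hL hL400 hlc
  set k := L / 32 with hkdef
  set l := Real.log k with hl
  set l2 := Real.log l with hl2
  set l3 := Real.log l2 with hl3
  simp only [Function.comp] at hlc
  rw [← hkdef, ← hl] at hlc
  obtain ⟨e1, e2, e3, g1, g2, g3⟩ := hpar.facts
  have h3 := hpar.h3
  have p1 := hpar.p1
  have p2 := hpar.p2
  have hk0 : (0 : ℝ) < k := by exact_mod_cast hpar.kpos
  have hkL : 32 * k ≤ L := by omega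
  have hkL' : L ≤ 64 * k := by omega
  -- `l2 ^ 2 ≤ l`
  have hl2l : l2 ^ 2 ≤ l := by
    have h1 := Helper9.GW.exp_ge (t := l2) (by linarith)
    rw [← e2] at h1
    refine le_trans ?_ h1
    have h2 : l2 ≤ (1 + l2 / 4) ^ 2 := by nlinarith
    have h4 : (1 + l2 / 4) ^ 4 = ((1 + l2 / 4) ^ 2) ^ 2 := by ring
    rw [h4]
    exact pow_le_pow_left₀ (by linarith) h2 2
  set Q := k * l ^ 2 * l3 / l2 ^ 2 with hQ
  have hQ0 : 0 < Q := by positivity
  set H := ⌊c1 * Q⌋₊ with hH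
  have hHle : (H : ℝ) ≤ c1 * Q := Nat.floor_le (by positivity)
  have hHgt : c1 * Q < H + 1 := Nat.lt_floor_add_one _
  have hQk : k * l ≤ Q := by
    rw [hQ, le_div_iff₀ (by positivity)]
    have h1 : (k : ℝ) * l * l2 ^ 2 ≤ k * l * l := mul_le_mul_of_nonneg_left hl2l (by positivity)
    have h2 : (k : ℝ) * l * l ≤ k * l ^ 2 * l3 := by
      have : 0 ≤ (k : ℝ) * l ^ 2 := by positivity
      nlinarith
    linarith
  have hkH : k ≤ H := by
    rw [hH]
    refine Nat.le_floor ?_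
    have h1 : 1 ≤ c1 * l := by
      rw [div_le_iff₀ hc1pos] at hlc
      linarith
    calc (k : ℝ) = k * 1 := (mul_one _).symm
      _ ≤ k * (c1 * l) := mul_le_mul_of_nonneg_left h1 hk0.le
      _ = c1 * (k * l) := by ring
      _ ≤ c1 * Q := mul_le_mul_of_nonneg_left hQk hc1pos.le
  have hHk : (H : ℝ) ≤ k * l ^ 2 := by
    have h1 : Q ≤ k * l ^ 2 := by
      rw [hQ, div_le_iff₀ (by positivity)]
      have h2 : l3 ≤ l2 ^ 2 := by nlinarith
      exact mul_le_mul_of_nonneg_left h2 (by positivity)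
    calc (H : ℝ) ≤ c1 * Q := hHle
      _ ≤ 1 * Q := mul_le_mul_of_nonneg_right hc1a hQ0.le
      _ ≤ k * l ^ 2 := by linarith
  have hlk : l ≤ k := by
    have := Real.add_one_le_exp l
    rw [← e1] at this
    linarith
  have hHk3 : H ≤ k ^ 3 := by
    have h1 : (H : ℝ) ≤ (k : ℝ) ^ 3 := by
      calc (H : ℝ) ≤ k * l ^ 2 := hHk
        _ ≤ k * (k : ℝ) ^ 2 := by
          exact mul_le_mul_of_nonneg_left (pow_le_pow_left₀ p1.le hlk 2) hk0.le
        _ = (k : ℝ) ^ 3 := by ring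
    exact_mod_cast h1
  have hHbig : H ≤ 2 ^ (L / 2) := by
    refine hHk3.trans ?_
    calc k ^ 3 ≤ (2 ^ k) ^ 3 := Nat.pow_le_pow_left (Nat.lt_two_pow_self).le 3
      _ = 2 ^ (k * 3) := by rw [pow_mul]
      _ ≤ 2 ^ (L / 2) := Nat.pow_le_pow_right (by norm_num) (by omega)
  obtain ⟨b, hb⟩ := cov hpar hkH hHk
  have hsurv : ((surv k b H).card : ℝ) ≤ c0 * L := by
    refine hb.trans ?_
    have h1 : 400 * (H : ℝ) * l2 ^ 2 / (l ^ 2 * l3) ≤ 400 * c1 * k := by
      rw [div_le_iff₀ (by positivity)]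
      have h2 : c1 * Q * l2 ^ 2 = c1 * (k * l ^ 2 * l3) := by
        rw [hQ]
        field_simp
      have h4 : (H : ℝ) * l2 ^ 2 ≤ c1 * Q * l2 ^ 2 :=
        mul_le_mul_of_nonneg_right hHle (by positivity)
      nlinarith
    have h2 : (k : ℝ) ≤ L := by
      exact_mod_cast (by omega : k ≤ L)
    calc _ ≤ 400 * c1 * k := h1
      _ ≤ c0 * k := mul_le_mul_of_nonneg_right hc1b hk0.le
      _ ≤ c0 * L := mul_le_mul_of_nonneg_left h2 hc0.le
  obtain ⟨n, hn1, hn2, hn3⟩ := step (hL0 L hL) hkL (by omega) hHbig hsurv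
  have hpw1 : 2 ^ (L - 1) = 4 * 2 ^ (L - 3) := by
    rw [show L - 1 = (L - 3) + 2 by omega, pow_add]; ring
  have hpw2 : 4 * 2 ^ (L / 2) ≤ 2 ^ (L - 3) := by
    calc 4 * 2 ^ (L / 2) = 2 ^ (L / 2 + 2) := by rw [pow_add]; ring
      _ ≤ _ := Nat.pow_le_pow_right (by norm_num) (by omega)
  have hpw3 : 100 ≤ 2 ^ (L / 2) := by
    calc 100 ≤ 2 ^ 7 := by norm_num
      _ ≤ _ := Nat.pow_le_pow_right (by norm_num) (by omega)
  obtain ⟨j, hj1, hj2, hj3, hj4⟩ := consecutive (n := n) (h := H) (by omega) hn3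
  have hp1 : 2 ^ (L - 3) ≤ Nat.nth Nat.Prime j := by omega
  have hp2 : Nat.nth Nat.Prime j < 2 ^ L := by omega
  refine ⟨j, hp1, hp2, hj3, ?_⟩
  set p := Nat.nth Nat.Prime j with hp
  have hp0 : (0 : ℝ) < p := by
    have : 0 < 2 ^ (L - 3) := by positivity
    exact_mod_cast (by omega : 0 < p)
  have hlog2 := Real.log_two_lt_d9
  have hlog2' := Real.log_two_gt_d9
  have hlogp1 : (k : ℝ) ≤ Real.log p := by
    have h1 : Real.log ((2 : ℝ) ^ (L - 3)) ≤ Real.log p := by
      apply Real.log_le_log (by positivity)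
      exact_mod_cast hp1
    rw [Real.log_pow] at h1
    refine le_trans ?_ h1
    have h2 : (2 : ℝ) * k ≤ ((L - 3 : ℕ) : ℝ) := by
      exact_mod_cast (by omega : 2 * k ≤ L - 3)
    nlinarith
  have hlogp2 : Real.log p ≤ 64 * k := by
    have h1 : Real.log p ≤ Real.log ((2 : ℝ) ^ L) := by
      apply Real.log_le_log hp0
      exact_mod_cast hp2.le
    rw [Real.log_pow] at h1
    have h2 : (L : ℝ) ≤ 64 * k := by exact_mod_cast hkL'
    have h3' : (0 : ℝ) ≤ L := Nat.cast_nonneg _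
    nlinarith
  obtain ⟨r1, r2⟩ := rate_le (t := (p : ℝ)) hl.symm hl2.symm hl3.symm hk0 hlogp1 hlogp2
    (by linarith) (by linarith) (by linarith)
  refine ⟨r2, ?_⟩
  have h5 : (p : ℝ) + H + 1 ≤ Nat.nth Nat.Prime (j + 1) := by
    exact_mod_cast (by omega : p + H + 1 ≤ Nat.nth Nat.Prime (j + 1))
  rw [← hQ] at r1
  have h6 : c1 / 512 * rate p ≤ c1 * Q := by
    calc c1 / 512 * rate p ≤ c1 / 512 * (512 * Q) :=
          mul_le_mul_of_nonneg_left r1 (by positivity)
      _ = c1 * Q := by ring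
  linarith

/-- for every large `x` a long gap between consecutive primes of size about `x` -/
theorem gaps_real (hcore : CoreStmt) : ∃ c : ℝ, 0 < c ∧ ∀ᶠ x : ℝ in atTop, ∃ j : ℕ,
    x ≤ Nat.nth Nat.Prime j ∧ (Nat.nth Nat.Prime (j + 1) : ℝ) ≤ 32 * x ∧
    0 ≤ rate (Nat.nth Nat.Prime j) ∧
    c * rate (Nat.nth Nat.Prime j) ≤
      (Nat.nth Nat.Prime (j + 1) : ℝ) - Nat.nth Nat.Prime j := by
  obtain ⟨c, hc, hL⟩ := gaps hcore
  refine ⟨c, hc, ?_⟩
  have hlog : Tendsto (fun n : ℕ => Nat.log 2 n + 4) atTop atTop :=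
    (tendsto_atTop_atTop.2 fun b => ⟨2 ^ b, fun a ha => by
      have h1 := Nat.log_mono_right (b := 2) ha
      rw [Nat.log_pow (by norm_num)] at h1
      omega⟩)
  have hT : Tendsto (fun x : ℝ => Nat.log 2 ⌊x⌋₊ + 4) atTop atTop :=
    hlog.comp tendsto_nat_floor_atTop
  filter_upwards [hT.eventually hL, eventually_ge_atTop 1] with x ⟨j, h1, h2, h3, h4, h5⟩ hx1
  set N := ⌊x⌋₊ with hN
  have hN1 : N ≠ 0 := by
    have : 1 ≤ N := Nat.le_floor (by exact_mod_cast hx1)
    omega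
  refine ⟨j, ?_, ?_, h4, h5⟩
  · have h6 : x < N + 1 := Nat.lt_floor_add_one x
    have h7 : N + 1 ≤ 2 ^ (Nat.log 2 N + 1) := Nat.lt_pow_succ_log_self (by norm_num) N
    have h8 : N + 1 ≤ Nat.nth Nat.Prime j := h7.trans h1
    have h9 : ((N + 1 : ℕ) : ℝ) ≤ Nat.nth Nat.Prime j := by exact_mod_cast h8
    push_cast at h9
    linarith
  · have h6 : (N : ℝ) ≤ x := Nat.floor_le (by linarith)
    have h7 : 2 ^ Nat.log 2 N ≤ N := Nat.pow_log_le_self 2 hN1
    have h8 : Nat.nth Nat.Prime (j + 1) ≤ 32 * N := by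
      have : 2 ^ (Nat.log 2 N + 4) = 16 * 2 ^ Nat.log 2 N := by rw [pow_add]; ring
      omega
    have h9 : (Nat.nth Nat.Prime (j + 1) : ℝ) ≤ 32 * N := by exact_mod_cast h8
    linarith

end Pool.Agent.Helper83.RWR
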