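import Pool.Agent.Helper83.RWR.Step2
import Pool.Agent.Helper9.GW.Final

/-!
# Long runs of composite numbers in short intervals, from the core theorem
-/

set_option autoImplicit false

namespace Pool.Agent.Helper83.RWR

open Finset Nat Filter

/-- the core theorem with a free level -/
def CoreDStmt : Prop :=
  ∃ c : ℝ, 0 < c ∧ ∃ L0 : ℕ, ∀ L d : ℕ, L0 ≤ L → L ^ 3 ≤ d ^ 4 → d ≤ L → CoreAt c L d

/-- `Y (log X) ^ 2 log log log X / (log log X) ^ 2` -/
noncomputable def rr (X Y : ℝ) : ℝ :=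
  Y * Real.log X ^ 2 * Real.log (Real.log (Real.log X)) / Real.log (Real.log X) ^ 2

theorem rr_le {X Y k l l2 l3 : ℝ} (hl : Real.log k = l) (hl2 : Real.log l = l2)
    (hl3 : Real.log l2 = l3) (hk : 0 < k) (h1 : k ≤ X) (h2 : Real.log X ≤ 2 * l)
    (hY0 : 0 ≤ Y) (hY : Y ≤ 64 * k)
    (p1 : 5 ≤ l) (p2 : 1 ≤ l2) (p3 : 1 ≤ l3) :
    rr X Y ≤ 512 * (k * l ^ 2 * l3 / l2 ^ 2) ∧ 0 ≤ rr X Y := by
  have hlog2 : Real.log 2 ≤ 1 := by
    have := Real.log_two_lt_d9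
    linarith
  have a1 : l ≤ Real.log X := by
    rw [← hl]; exact Real.log_le_log hk h1
  have b1 : l2 ≤ Real.log (Real.log X) := by
    rw [← hl2]; exact Real.log_le_log (by linarith) a1
  have b2 : Real.log (Real.log X) ≤ 2 * l2 := by
    have h := Real.log_le_log (by linarith) h2
    rw [Real.log_mul (by norm_num) (by linarith), hl2] at h
    linarith
  have c1 : l3 ≤ Real.log (Real.log (Real.log X)) := by
    rw [← hl3]; exact Real.log_le_log (by linarith) b1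
  have c2 : Real.log (Real.log (Real.log X)) ≤ 2 * l3 := by
    have h := Real.log_le_log (by linarith) b2
    rw [Real.log_mul (by norm_num) (by linarith), hl3] at h
    linarith
  have g1 : 0 < Real.log X := by linarith
  have g2 : 0 < Real.log (Real.log X) := by linarith
  have g3 : 0 < Real.log (Real.log (Real.log X)) := by linarith
  refine ⟨?_, ?_⟩
  · unfold rr
    have e : 512 * (k * l ^ 2 * l3 / l2 ^ 2) = (64 * k) * (2 * l) ^ 2 * (2 * l3) / l2 ^ 2 := by ring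
    rw [e]
    apply div_le_div₀ (by positivity)
    · apply mul_le_mul _ c2 g3.le (by positivity)
      apply mul_le_mul hY _ (by positivity) (by positivity)
      exact pow_le_pow_left₀ g1.le h2 2
    · positivity
    · exact pow_le_pow_left₀ (by linarith) b1 2
  · unfold rr
    positivity

theorem gapsL (hcore : CoreDStmt) : ∃ c : ℝ, 0 < c ∧ ∃ L1 : ℕ, ∀ L : ℕ, L1 ≤ L → ∀ e k : ℕ,
    k = e / 32 → e ≤ L → L ^ 3 ≤ k ^ 4 → ∀ n1 : ℕ, 2 ^ (L - 1) ≤ n1 →
    1000 ≤ k ∧ 5 ≤ Real.log k ∧ 1 ≤ Real.log (Real.log k) ∧ 1 ≤ Real.log (Real.log (Real.log k)) ∧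
    ∃ N h : ℕ, n1 ≤ N ∧ N + h ≤ n1 + 2 ^ e ∧ (∀ m, N < m → m ≤ N + h → ¬ m.Prime) ∧
      c * (k * Real.log k ^ 2 * Real.log (Real.log (Real.log k)) / Real.log (Real.log k) ^ 2) ≤
        (h : ℝ) + 1 := by
  obtain ⟨c0, hc0, L0, hL0⟩ := hcore
  set c1 : ℝ := min 1 (c0 / 400) with hc1
  have hc1pos : 0 < c1 := lt_min one_pos (by positivity)
  have hc1a : c1 ≤ 1 := min_le_left _ _
  have hc1b : 400 * c1 ≤ c0 := by
    have := min_le_right 1 (c0 / 400)
    rw [← hc1] at this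
    linarith
  refine ⟨c1, hc1pos, ?_⟩
  have hcast : Tendsto (fun k : ℕ => (k : ℝ)) atTop atTop := tendsto_natCast_atTop_atTop
  have t1 : Tendsto (fun k : ℕ => Real.log k) atTop atTop := Real.tendsto_log_atTop.comp hcast
  obtain ⟨K0, hK0⟩ := eventually_atTop.1 ((Helper9.GW.par_eventually.and
    (t1.eventually_ge_atTop (1 / c1))).and (eventually_ge_atTop 1000))
  refine ⟨max L0 (K0 ^ 2 + 1), fun L hL e k hke heL hLk n1 hn1 => ?_⟩
  have hLL0 : L0 ≤ L := (le_max_left _ _).trans hL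
  have hLK : K0 ^ 2 + 1 ≤ L := (le_max_right _ _).trans hL
  have hkK : K0 ≤ k := by
    by_contra hcon
    push Not at hcon
    have h1 : k ^ 4 ≤ K0 ^ 4 := Nat.pow_le_pow_left hcon.le 4
    have h2 : (K0 ^ 2 + 1) ^ 2 ≤ L ^ 2 := Nat.pow_le_pow_left hLK 2
    have h3 : L ^ 2 ≤ L ^ 3 := Nat.pow_le_pow_right (by omega) (by norm_num)
    have h4 : K0 ^ 4 < (K0 ^ 2 + 1) ^ 2 := by
      have : (K0 ^ 2 + 1) ^ 2 = K0 ^ 4 + (2 * K0 ^ 2 + 1) := by ring
      omega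
    omega
  obtain ⟨⟨hpar, hlc⟩, hk1000⟩ := hK0 k hkK
  set l := Real.log k with hl
  set l2 := Real.log l with hl2
  set l3 := Real.log l2 with hl3
  obtain ⟨e1, e2, e3, g1, g2, g3⟩ := hpar.facts
  have h3 := hpar.h3
  have p1 := hpar.p1
  have p2 := hpar.p2
  have hk0 : (0 : ℝ) < k := by exact_mod_cast hpar.kpos
  have hkL : 32 * k ≤ L := by omega
  refine ⟨hk1000, by linarith, by linarith, by linarith, ?_⟩
  -- `l2 ^ 2 ≤ l`
  have hl2l : l2 ^ 2 ≤ l := by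
    have h1 := Helper9.GW.exp_ge (t := l2) (by linarith)
    rw [← e2] at h1
    refine le_trans ?_ h1
    have h2 : l2 ≤ (1 + l2 / 4) ^ 2 := by nlinarith
    have h4 : (1 + l2 / 4) ^ 4 = ((1 + l2 / 4) ^ 2) ^ 2 := by ring
    rw [h4]
    exact pow_le_pow_left₀ (by linarith) h2 2
  set Q := k * l ^ 2 * l3 / l2 ^ 2 with hQ
  have hQ0 : 0 < Q := by positivity
  set H := ⌊c1 * Q⌋₊ with hH
  have hHle : (H : ℝ) ≤ c1 * Q := Nat.floor_le (by positivity)
  have hHgt : c1 * Q < H + 1 := Nat.lt_floor_add_one _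
  have hQk : k * l ≤ Q := by
    rw [hQ, le_div_iff₀ (by positivity)]
    have h1 : (k : ℝ) * l * l2 ^ 2 ≤ k * l * l := mul_le_mul_of_nonneg_left hl2l (by positivity)
    have h2 : (k : ℝ) * l * l ≤ k * l ^ 2 * l3 := by
      have : 0 ≤ (k : ℝ) * l ^ 2 := by positivity
      nlinarith
    linarith
  have hkH : k ≤ H := by
    rw [hH]
    refine Nat.le_floor ?_
    have h1 : 1 ≤ c1 * l := by
      rw [div_le_iff₀ hc1pos] at hlc
      linarith
    calc (k : ℝ) = k * 1 := (mul_one _).symm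
      _ ≤ k * (c1 * l) := mul_le_mul_of_nonneg_left h1 hk0.le
      _ = c1 * (k * l) := by ring
      _ ≤ c1 * Q := mul_le_mul_of_nonneg_left hQk hc1pos.le
  have hHk : (H : ℝ) ≤ k * l ^ 2 := by
    have h1 : Q ≤ k * l ^ 2 := by
      rw [hQ, div_le_iff₀ (by positivity)]
      have h2 : l3 ≤ l2 ^ 2 := by nlinarith
      exact mul_le_mul_of_nonneg_left h2 (by positivity)
    calc (H : ℝ) ≤ c1 * Q := hHle
      _ ≤ 1 * Q := mul_le_mul_of_nonneg_right hc1a hQ0.le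
      _ ≤ k * l ^ 2 := by linarith
  have hlk : l ≤ k := by
    have := Real.add_one_le_exp l
    rw [← e1] at this
    linarith
  have hHk3 : H ≤ k ^ 3 := by
    have h1 : (H : ℝ) ≤ (k : ℝ) ^ 3 := by
      calc (H : ℝ) ≤ k * l ^ 2 := hHk
        _ ≤ k * (k : ℝ) ^ 2 := by
          exact mul_le_mul_of_nonneg_left (pow_le_pow_left₀ p1.le hlk 2) hk0.le
        _ = (k : ℝ) ^ 3 := by ring
    exact_mod_cast h1
  have hHbig : H ≤ 2 ^ (e / 2) := by
    refine hHk3.trans ?_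
    calc k ^ 3 ≤ (2 ^ k) ^ 3 := Nat.pow_le_pow_left (Nat.lt_two_pow_self).le 3
      _ = 2 ^ (k * 3) := by rw [pow_mul]
      _ ≤ 2 ^ (e / 2) := Nat.pow_le_pow_right (by norm_num) (by omega)
  obtain ⟨b, hb⟩ := cov hpar hkH hHk
  have hsurv : ((surv k b H).card : ℝ) ≤ c0 * k := by
    refine hb.trans ?_
    have h1 : 400 * (H : ℝ) * l2 ^ 2 / (l ^ 2 * l3) ≤ 400 * c1 * k := by
      rw [div_le_iff₀ (by positivity)]
      have h2 : c1 * Q * l2 ^ 2 = c1 * (k * l ^ 2 * l3) := by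
        rw [hQ]
        field_simp
      have h4 : (H : ℝ) * l2 ^ 2 ≤ c1 * Q * l2 ^ 2 :=
        mul_le_mul_of_nonneg_right hHle (by positivity)
      nlinarith
    exact h1.trans (mul_le_mul_of_nonneg_right hc1b hk0.le)
  have hkn1 : k + 2 ^ k < n1 := by
    refine lt_of_lt_of_le ?_ hn1
    have h1 := Nat.lt_two_pow_self (n := k)
    calc k + 2 ^ k < 2 ^ k + 2 ^ k := by omega
      _ = 2 ^ (k + 1) := by rw [pow_succ]; ring
      _ ≤ 2 ^ (L - 1) := Nat.pow_le_pow_right (by norm_num) (by omega)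
  obtain ⟨N, hN1, hN2, hN3⟩ := step2 (hL0 L k hLL0 hLk (by omega)) hke (by omega) heL hHbig hkn1
    hsurv
  exact ⟨N, H, hN1, hN2, hN3, hHgt.le⟩

/-- long runs of composite numbers in short intervals -/
theorem short (hcore : CoreDStmt) : ∃ c : ℝ, 0 < c ∧ ∀ᶠ x : ℝ in atTop, ∀ y : ℝ,
    Real.exp (Real.log x ^ ((4 : ℝ) / 5)) ≤ y → y ≤ x →
    0 ≤ rr (Real.log x) (Real.log y) ∧
    ∃ N h : ℕ, x ≤ N ∧ (N : ℝ) + h ≤ x + y ∧ (∀ m, N < m → m ≤ N + h → ¬ m.Prime) ∧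
      c * rr (Real.log x) (Real.log y) ≤ (h : ℝ) + 1 := by
  obtain ⟨c, hc, L1, hL1⟩ := gapsL hcore
  refine ⟨c / 512, by positivity, ?_⟩
  have hbig : ∀ᶠ u : ℝ in atTop, (2 : ℝ) ^ 27 ≤ u ^ ((1 : ℝ) / 5) :=
    (tendsto_rpow_atTop (by norm_num)).eventually_ge_atTop _
  have hlogx : Tendsto (fun x : ℝ => Real.log x) atTop atTop := Real.tendsto_log_atTop
  filter_upwards [hlogx.eventually hbig, eventually_ge_atTop ((2 : ℝ) ^ (L1 + 1)),
    hlogx.eventually_ge_atTop 1000] with x hx1 hx2 hx3 y hy1 hy2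
  set X := Real.log x with hX
  have hx0 : 0 < x := by
    have : (0 : ℝ) < 2 ^ (L1 + 1) := by positivity
    linarith
  have hxX : x = Real.exp X := by rw [hX, Real.exp_log hx0]
  have hlog2 := Real.log_two_lt_d9
  have hlog2' := Real.log_two_gt_d9
  -- powers of `X`
  have hX0 : 0 < X := by linarith
  set r := X ^ ((1 : ℝ) / 5) with hr
  have hr0 : 0 < r := by positivity
  have hXr : X = r ^ 5 := by
    rw [hr, ← Real.rpow_natCast, ← Real.rpow_mul hX0.le]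
    norm_num
  have hX45 : X ^ ((4 : ℝ) / 5) = r ^ 4 := by
    rw [hr, ← Real.rpow_natCast, ← Real.rpow_mul hX0.le]
    norm_num
  rw [hX45] at hy1
  have hy0 : 0 < y := lt_of_lt_of_le (Real.exp_pos _) hy1
  have hlogy : r ^ 4 ≤ Real.log y := by
    rw [Real.le_log_iff_exp_le hy0]
    exact hy1
  have hr4 : (2 : ℝ) ^ 108 ≤ r ^ 4 := by
    calc (2 : ℝ) ^ 108 = (2 ^ 27) ^ 4 := by norm_num
      _ ≤ r ^ 4 := pow_le_pow_left₀ (by positivity) hx1 4
  have hy4 : 4 ≤ y := by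
    have h1 := Real.add_one_le_exp (r ^ 4)
    have h2 : (4 : ℝ) ≤ 2 ^ 108 := by norm_num
    linarith
  -- `L`
  set n1 := ⌈x⌉₊ with hn1
  set L := Nat.log 2 n1 + 1 with hL
  have hxn : x ≤ n1 := Nat.le_ceil x
  have hnx : (n1 : ℝ) < x + 1 := Nat.ceil_lt_add_one hx0.le
  have hn1pos : n1 ≠ 0 := by
    have : (0 : ℝ) < n1 := by linarith
    have : 0 < n1 := by exact_mod_cast this
    omega
  have hL2 : 2 ^ (L - 1) ≤ n1 := Nat.pow_log_le_self 2 hn1pos
  have hL3 : n1 < 2 ^ L := Nat.lt_pow_succ_log_self (by norm_num) n1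
  have hLL1 : L1 ≤ L := by
    have h1 : ((2 ^ (L1 + 1) : ℕ) : ℝ) ≤ n1 := by push_cast; linarith
    have h2 : 2 ^ (L1 + 1) ≤ n1 := by exact_mod_cast h1
    have h3 : 2 ^ (L1 + 1) < 2 ^ L := lt_of_le_of_lt h2 hL3
    have h4 := (Nat.pow_lt_pow_iff_right (by norm_num)).1 h3
    omega
  -- bounds for `L`
  have hXL : X ≤ L * Real.log 2 := by
    have h1 : x ≤ (2 : ℝ) ^ L := by
      have h2 : (n1 : ℝ) < (2 : ℝ) ^ L := by exact_mod_cast hL3
      linarith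
    have h2 := Real.log_le_log hx0 h1
    rwa [Real.log_pow] at h2
  have hLX : ((L : ℝ) - 2) * Real.log 2 ≤ X := by
    have h1 : ((2 : ℝ)) ^ (L - 1) ≤ n1 := by exact_mod_cast hL2
    have h2 : (n1 : ℝ) ≤ 2 * x := by
      have : 1 ≤ x := by
        have h4 : (1 : ℝ) ≤ 2 ^ (L1 + 1) := one_le_pow₀ (by norm_num)
        linarith
      linarith
    have h3 := Real.log_le_log (by positivity) (h1.trans h2)
    rw [Real.log_pow, Real.log_mul (by norm_num) hx0.ne'] at h3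
    have h4 : ((L - 1 : ℕ) : ℝ) = (L : ℝ) - 1 := by
      rw [Nat.cast_sub (by omega)]; norm_num
    rw [h4] at h3
    linarith
  have hL4 : (1000 : ℝ) ≤ L := by
    have h0 : (0 : ℝ) ≤ L := Nat.cast_nonneg L
    nlinarith
  have hL2X : (L : ℝ) ≤ 2 * X := by nlinarith
  -- `e`
  set e := Nat.log 2 ⌊y / 2⌋₊ with he
  have hfy : 1 ≤ ⌊y / 2⌋₊ := Nat.le_floor (by push_cast; linarith)
  have he1 : (2 : ℝ) ^ e ≤ y / 2 := by
    have h1 : 2 ^ e ≤ ⌊y / 2⌋₊ := Nat.pow_log_le_self 2 (by omega)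
    have h2 : ((2 ^ e : ℕ) : ℝ) ≤ (⌊y / 2⌋₊ : ℝ) := by exact_mod_cast h1
    push_cast at h2
    exact h2.trans (Nat.floor_le (by linarith))
  have he2 : y ≤ (2 : ℝ) ^ (e + 2) := by
    have h1 : ⌊y / 2⌋₊ + 1 ≤ 2 ^ (e + 1) := Nat.lt_pow_succ_log_self (by norm_num) _
    have h2 : ((⌊y / 2⌋₊ + 1 : ℕ) : ℝ) ≤ ((2 ^ (e + 1) : ℕ) : ℝ) := by exact_mod_cast h1
    push_cast at h2
    have h3 := Nat.lt_floor_add_one (y / 2)
    have h4 : (2 : ℝ) ^ (e + 2) = 2 * 2 ^ (e + 1) := by rw [pow_succ]; ring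
    rw [h4]
    linarith
  have hlogy2 : Real.log y ≤ ((e : ℝ) + 2) * Real.log 2 := by
    have h1 := Real.log_le_log hy0 he2
    rw [Real.log_pow] at h1
    push_cast at h1
    exact h1
  have heL : e ≤ L := by
    have h1 : (2 : ℝ) ^ e < (2 : ℝ) ^ L := by
      have h2 : (n1 : ℝ) < (2 : ℝ) ^ L := by exact_mod_cast hL3
      linarith
    exact ((pow_lt_pow_iff_right₀ (by norm_num)).1 h1).le
  have he0 : (0 : ℝ) ≤ e := Nat.cast_nonneg e
  have her : r ^ 4 ≤ (e : ℝ) + 2 := by nlinarith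
  set k := e / 32 with hk
  have hke : (e : ℝ) ≤ 32 * k + 31 := by
    have : e ≤ 32 * k + 31 := by omega
    exact_mod_cast this
  have hkr : r ^ 4 / 64 ≤ k := by
    have h2 : (33 : ℝ) * 2 ≤ 2 ^ 108 := by norm_num
    linarith
  have hLk : L ^ 3 ≤ k ^ 4 := by
    have h1 : (L : ℝ) ^ 3 ≤ (k : ℝ) ^ 4 := by
      calc (L : ℝ) ^ 3 ≤ (2 * X) ^ 3 := pow_le_pow_left₀ (by positivity) hL2X 3
        _ = 8 * r ^ 15 := by rw [hXr]; ring
        _ ≤ r ^ 16 / 64 ^ 4 := by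
          rw [le_div_iff₀ (by norm_num)]
          have h2 : (2 : ℝ) ^ 27 * r ^ 15 ≤ r * r ^ 15 :=
            mul_le_mul_of_nonneg_right hx1 (by positivity)
          calc 8 * r ^ 15 * 64 ^ 4 = 2 ^ 27 * r ^ 15 := by ring
            _ ≤ r * r ^ 15 := h2
            _ = r ^ 16 := by ring
        _ = (r ^ 4 / 64) ^ 4 := by ring
        _ ≤ (k : ℝ) ^ 4 := pow_le_pow_left₀ (by positivity) hkr 4
    exact_mod_cast h1
  obtain ⟨k1, k2, k3, k4, N, h, hN1, hN2, hN3, hN4⟩ := hL1 L hLL1 e k hk heL hLk n1 hL2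
  have hkpos : (0 : ℝ) < k := by
    have : (1000 : ℝ) ≤ k := by exact_mod_cast k1
    linarith
  have hk1000 : (1000 : ℝ) ≤ k := by exact_mod_cast k1
  have hkX : (k : ℝ) ≤ X := by
    have h1 : (k : ℝ) * 32 ≤ L := by
      have : k * 32 ≤ L := by omega
      exact_mod_cast this
    nlinarith
  have hlogX : Real.log X ≤ 2 * Real.log k := by
    have h1 : (X : ℝ) ≤ L := by nlinarith
    have h2 : Real.log X ≤ Real.log L := Real.log_le_log hX0 h1
    have h3 : Real.log ((L : ℝ) ^ 3) ≤ Real.log ((k : ℝ) ^ 4) := by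
      apply Real.log_le_log (by positivity)
      exact_mod_cast hLk
    rw [Real.log_pow, Real.log_pow] at h3
    push_cast at h3
    linarith
  have hYk : Real.log y ≤ 64 * k := by
    have h1 : ((e : ℝ) + 2) * Real.log 2 ≤ 32 * k + 33 := by nlinarith
    linarith
  have hY0 : 0 ≤ Real.log y := by
    have : (0 : ℝ) ≤ r ^ 4 := by positivity
    linarith
  obtain ⟨r1, r2⟩ := rr_le (X := X) (Y := Real.log y) rfl rfl rfl hkpos hkX hlogX hY0 hYk k2 k3 k4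
  refine ⟨r2, N, h, ?_, ?_, hN3, ?_⟩
  · have : (n1 : ℝ) ≤ N := by exact_mod_cast hN1
    linarith
  · have h1 : ((N + h : ℕ) : ℝ) ≤ ((n1 + 2 ^ e : ℕ) : ℝ) := by exact_mod_cast hN2
    push_cast at h1
    linarith
  · refine le_trans ?_ hN4
    calc c / 512 * rr X (Real.log y) ≤ c / 512 * (512 * _) :=
          mul_le_mul_of_nonneg_left r1 (by positivity)
      _ = c * _ := by ring

end Pool.Agent.Helper83.RWR
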