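import Pool.Agent.Helper83.RWR.Step2
import Pool.Agent.Helper9.GW.Final

/-!
# Long runs of composite numbers in short intervals `[x, x + y]`, uniformly in `x ≥ y`
-/

set_option autoImplicit false

namespace Pool.Agent.Helper83.RWR

open Finset Nat Filter

/-- the core theorem with a free level -/
def CoreD : Prop :=
  ∃ c : ℝ, 0 < c ∧ ∃ L0 : ℕ, ∀ L d : ℕ, L0 ≤ L → L ^ 3 ≤ d ^ 4 → d ≤ L → CoreAt c L d

/-- a run of composite numbers in `(n1, n1 + 2 ^ e]` -/
theorem step3 {c : ℝ} {e k b h n1 : ℕ} (hcore : CoreAt c k k)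
    (hk : k = e / 32) (he : 400 ≤ e) (hh : h ≤ 2 ^ k)
    (hn1 : k + 2 ^ k < n1)
    (hs : ((surv k b h).card : ℝ) ≤ c * k) :
    ∃ N : ℕ, n1 ≤ N ∧ N + h ≤ n1 + 2 ^ e ∧ ∀ m, N < m → m ≤ N + h → ¬ m.Prime := by
  set M := primorial k with hM
  have hMpos : 0 < M := primorial_pos k
  have hM4 : M ≤ 4 ^ k := primorial_le_four_pow k
  have hM2 : M ≤ 2 ^ (e / 16) := by
    refine hM4.trans ?_
    rw [show (4 : ℕ) = 2 ^ 2 by norm_num, ← pow_mul]
    exact Nat.pow_le_pow_right (by norm_num) (by omega)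
  set A := n1 + h + 1 with hA
  set n0 : ℕ := M * (A / M + 1) + b % M with hn0
  have hn0a : A ≤ n0 := by
    have h1 := Nat.div_add_mod A M
    have h2 := Nat.mod_lt A hMpos
    have h3 : M * (A / M + 1) = M * (A / M) + M := by ring
    omega
  have hn0b : n0 ≤ A + 2 * M := by
    have h1 := Nat.mul_div_le A M
    have h2 := Nat.mod_lt b hMpos
    have h3 : M * (A / M + 1) = M * (A / M) + M := by ring
    omega
  have hn0c : ∀ p, p ∣ M → ∀ t : ℕ, n0 + M * t ≡ b [MOD p] := by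
    intro p hp t
    have h1 : n0 + M * t ≡ b [MOD M] := by
      rw [hn0]
      unfold Nat.ModEq
      rw [show M * (A / M + 1) + b % M + M * t =
        b % M + M * (A / M + 1 + t) by ring, Nat.add_mul_mod_self_left, Nat.mod_mod]
    exact h1.of_dvd hp
  set B : Finset ℤ := (surv k b h).image (fun m : ℕ => (m : ℤ)) with hB
  obtain ⟨t, ht, hT⟩ := hcore M n0 B (2 ^ (8 * k)) (by
      intro q hq hLq
      rw [Nat.coprime_comm, Nat.Prime.coprime_iff_not_dvd hq]
      intro hd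
      rw [hM, hq.dvd_primorial_iff] at hd
      have h2 : k ≤ k ^ 6 := Nat.le_self_pow (by norm_num) k
      omega) (by
      intro z hz
      rw [hB, mem_image] at hz
      obtain ⟨m, hm, rfl⟩ := hz
      unfold surv at hm
      rw [mem_filter, mem_Icc] at hm
      rw [Nat.abs_cast]
      have h1 : m ≤ 2 ^ k := hm.1.2.trans hh
      exact_mod_cast h1) (by
      refine le_trans ?_ hs
      exact_mod_cast Finset.card_image_le) le_rfl
  have hMT : M * t ≤ 2 ^ (e / 16 + 8 * k) := by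
    rw [pow_add]
    exact Nat.mul_le_mul hM2 ht.le
  have hpow0 : 2 ^ e = 8 * 2 ^ (e - 3) := by
    rw [show e = (e - 3) + 3 by omega, pow_add]
    simp only [Nat.add_sub_cancel]
    ring
  have hpow1 : 2 ^ (e / 16 + 8 * k) ≤ 2 ^ (e - 3) :=
    Nat.pow_le_pow_right (by norm_num) (by omega)
  have hpow2 : 2 * M ≤ 2 ^ (e - 3) := by
    calc 2 * M ≤ 2 * 2 ^ (e / 16) := Nat.mul_le_mul_left _ hM2
      _ = 2 ^ (e / 16 + 1) := by rw [pow_succ]; ring
      _ ≤ _ := Nat.pow_le_pow_right (by norm_num) (by omega)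
  have hpow3 : h ≤ 2 ^ (e - 3) := hh.trans (Nat.pow_le_pow_right (by norm_num) (by omega))
  have hpow4 : 1 ≤ 2 ^ (e - 3) := Nat.one_le_two_pow
  refine ⟨n0 + M * t - h - 1, by omega, by omega, fun r hr1 hr2 hp => ?_⟩
  -- `r = n - m`
  obtain ⟨m, hm1, hm2, hmr⟩ : ∃ m, 1 ≤ m ∧ m ≤ h ∧ n0 + M * t - m = r :=
    ⟨n0 + M * t - r, by omega, by omega, by omega⟩
  have hmn : m ≤ n0 + M * t := by omega
  have hN1 : n1 < r := by omega
  have hbig2 : k < r := (lt_of_le_of_lt (Nat.le_add_right _ _) hn1).trans hN1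
  have hbig3 : 2 ^ k < r := (lt_of_le_of_lt (Nat.le_add_left _ _) hn1).trans hN1
  by_cases hms : m ∈ surv k b h
  · obtain ⟨q, hq1, hq2, hq3, hq4⟩ := hT m (mem_image.2 ⟨m, hms, rfl⟩)
    have h1 : q ∣ r := by
      have h2 : ((n0 : ℤ) + M * t - m) = ((n0 + M * t - m : ℕ) : ℤ) := by
        rw [Nat.cast_sub hmn]
        push_cast
        ring
      rw [h2, hmr] at hq4
      exact_mod_cast hq4
    have h2 := (Nat.prime_dvd_prime_iff_eq hq1 hp).1 h1
    rw [← h2] at hbig3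
    exact absurd hq3 (not_le.2 hbig3)
  · unfold surv at hms
    rw [mem_filter, mem_Icc] at hms
    push Not at hms
    obtain ⟨p, hp1, hp2⟩ := hms ⟨hm1, hm2⟩
    obtain ⟨h3, h4, h5⟩ := Helper52.mem_pr.1 hp1
    have h6 : p ∣ M := by
      rw [hM, h5.dvd_primorial_iff]
      exact h4
    have h7 : m ≡ n0 + M * t [MOD p] := hp2.trans (hn0c p h6 t).symm
    have h8 : p ∣ n0 + M * t - m := (Nat.modEq_iff_dvd' hmn).1 h7
    rw [hmr] at h8
    have h9 := (Nat.prime_dvd_prime_iff_eq h5 hp).1 h8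
    rw [← h9] at hbig2
    exact absurd h4 (not_le.2 hbig2)

/-- `(log log x) ^ 2 log log log log x / (log log log x) ^ 2` -/
noncomputable def rho (x : ℝ) : ℝ :=
  Real.log (Real.log x) ^ 2 * Real.log (Real.log (Real.log (Real.log x))) /
    Real.log (Real.log (Real.log x)) ^ 2

theorem rho_le {t k l l2 l3 : ℝ} (hl : Real.log k = l) (hl2 : Real.log l = l2)
    (hl3 : Real.log l2 = l3) (hk : 0 < k) (h1 : k ≤ Real.log t) (h2 : Real.log t ≤ 64 * k)
    (p1 : 5 ≤ l) (p2 : 1 ≤ l2) (p3 : 1 ≤ l3) :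
    Real.log t * rho t ≤ 512 * (k * l ^ 2 * l3 / l2 ^ 2) ∧ 0 < Real.log t ∧ 0 < rho t := by
  have hlog2 : Real.log 2 ≤ 1 := by
    have := Real.log_two_lt_d9
    linarith
  have hlog64 : Real.log 64 ≤ 5 := by
    have e : Real.log 64 = 6 * Real.log 2 := by
      rw [show (64 : ℝ) = 2 ^ 6 by norm_num, Real.log_pow]; norm_num
    have := Real.log_two_lt_d9
    linarith
  have a1 : l ≤ Real.log (Real.log t) := by
    rw [← hl]; exact Real.log_le_log hk h1
  have a2 : Real.log (Real.log t) ≤ 2 * l := by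
    have h := Real.log_le_log (by linarith) h2
    rw [Real.log_mul (by norm_num) hk.ne', hl] at h
    linarith
  have b1 : l2 ≤ Real.log (Real.log (Real.log t)) := by
    rw [← hl2]; exact Real.log_le_log (by linarith) a1
  have b2 : Real.log (Real.log (Real.log t)) ≤ 2 * l2 := by
    have h := Real.log_le_log (by linarith) a2
    rw [Real.log_mul (by norm_num) (by linarith), hl2] at h
    linarith
  have c1 : l3 ≤ Real.log (Real.log (Real.log (Real.log t))) := by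
    rw [← hl3]; exact Real.log_le_log (by linarith) b1
  have c2 : Real.log (Real.log (Real.log (Real.log t))) ≤ 2 * l3 := by
    have h := Real.log_le_log (by linarith) b2
    rw [Real.log_mul (by norm_num) (by linarith), hl3] at h
    linarith
  have g1 : 0 < Real.log (Real.log t) := by linarith
  have g2 : 0 < Real.log (Real.log (Real.log t)) := by linarith
  have g3 : 0 < Real.log (Real.log (Real.log (Real.log t))) := by linarith
  have g0 : 0 < Real.log t := by linarith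
  refine ⟨?_, g0, by unfold rho; positivity⟩
  have h3 : rho t ≤ (2 * l) ^ 2 * (2 * l3) / l2 ^ 2 := by
    unfold rho
    apply div_le_div₀ (by positivity)
    · exact mul_le_mul (pow_le_pow_left₀ g1.le a2 2) c2 g3.le (by positivity)
    · positivity
    · exact pow_le_pow_left₀ (by linarith) b1 2
  calc Real.log t * rho t ≤ (64 * k) * ((2 * l) ^ 2 * (2 * l3) / l2 ^ 2) :=
        mul_le_mul h2 h3 (by unfold rho; positivity) (by positivity)
    _ = 512 * (k * l ^ 2 * l3 / l2 ^ 2) := by ring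

theorem gapsE (hcore : CoreD) : ∃ c : ℝ, 0 < c ∧ ∃ K : ℕ, ∀ e k : ℕ, K ≤ k →
    k = e / 32 → ∀ n1 : ℕ, k + 2 ^ k < n1 →
    1000 ≤ k ∧ 5 ≤ Real.log k ∧ 1 ≤ Real.log (Real.log k) ∧ 1 ≤ Real.log (Real.log (Real.log k)) ∧
    ∃ N h : ℕ, n1 ≤ N ∧ N + h ≤ n1 + 2 ^ e ∧ 1 ≤ h ∧ (∀ m, N < m → m ≤ N + h → ¬ m.Prime) ∧
      c * (k * Real.log k ^ 2 * Real.log (Real.log (Real.log k)) / Real.log (Real.log k) ^ 2) ≤
        (h : ℝ) + 1 := by
  obtain ⟨c0, hc0, L0, hL0⟩ := hcore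
  set c1 : ℝ := min 1 (c0 / 400) with hc1
  have hc1pos : 0 < c1 := lt_min one_pos (by positivity)
  have hc1a : c1 ≤ 1 := min_le_left _ _
  have hc1b : 400 * c1 ≤ c0 := by
    have := min_le_right 1 (c0 / 400)
    rw [← hc1] at this
    linarith
  refine ⟨c1, hc1pos, ?_⟩
  have hcast : Tendsto (fun k : ℕ => (k : ℝ)) atTop atTop := tendsto_natCast_atTop_atTop
  have t1 : Tendsto (fun k : ℕ => Real.log k) atTop atTop := Real.tendsto_log_atTop.comp hcast
  obtain ⟨K0, hK0⟩ := eventually_atTop.1 ((Helper9.GW.par_eventually.and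
    (t1.eventually_ge_atTop (1 / c1))).and (eventually_ge_atTop 1000))
  refine ⟨max L0 K0, fun e k hKk hke n1 hn1 => ?_⟩
  obtain ⟨⟨hpar, hlc⟩, hk1000⟩ := hK0 k ((le_max_right _ _).trans hKk)
  set l := Real.log k with hl
  set l2 := Real.log l with hl2
  set l3 := Real.log l2 with hl3
  obtain ⟨e1, e2, e3, g1, g2, g3⟩ := hpar.facts
  have h3 := hpar.h3
  have p1 := hpar.p1
  have p2 := hpar.p2
  have hk0 : (0 : ℝ) < k := by exact_mod_cast hpar.kpos
  refine ⟨hk1000, by linarith, by linarith, by linarith, ?_⟩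
  have hl2l : l2 ^ 2 ≤ l := by
    have h1 := Helper9.GW.exp_ge (t := l2) (by linarith)
    rw [← e2] at h1
    refine le_trans ?_ h1
    have h2 : l2 ≤ (1 + l2 / 4) ^ 2 := by nlinarith
    have h4 : (1 + l2 / 4) ^ 4 = ((1 + l2 / 4) ^ 2) ^ 2 := by ring
    rw [h4]
    exact pow_le_pow_left₀ (by linarith) h2 2
  set Q := k * l ^ 2 * l3 / l2 ^ 2 with hQ
  have hQ0 : 0 < Q := by positivity
  set H := ⌊c1 * Q⌋₊ with hH
  have hHle : (H : ℝ) ≤ c1 * Q := Nat.floor_le (by positivity)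
  have hHgt : c1 * Q < H + 1 := Nat.lt_floor_add_one _
  have hQk : k * l ≤ Q := by
    rw [hQ, le_div_iff₀ (by positivity)]
    have h1 : (k : ℝ) * l * l2 ^ 2 ≤ k * l * l := mul_le_mul_of_nonneg_left hl2l (by positivity)
    have h2 : (k : ℝ) * l * l ≤ k * l ^ 2 * l3 := by
      have : 0 ≤ (k : ℝ) * l ^ 2 := by positivity
      nlinarith
    linarith
  have hkH : k ≤ H := by
    rw [hH]
    refine Nat.le_floor ?_
    have h1 : 1 ≤ c1 * l := by
      rw [div_le_iff₀ hc1pos] at hlc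
      linarith
    calc (k : ℝ) = k * 1 := (mul_one _).symm
      _ ≤ k * (c1 * l) := mul_le_mul_of_nonneg_left h1 hk0.le
      _ = c1 * (k * l) := by ring
      _ ≤ c1 * Q := mul_le_mul_of_nonneg_left hQk hc1pos.le
  have hHk : (H : ℝ) ≤ k * l ^ 2 := by
    have h1 : Q ≤ k * l ^ 2 := by
      rw [hQ, div_le_iff₀ (by positivity)]
      have h2 : l3 ≤ l2 ^ 2 := by nlinarith
      exact mul_le_mul_of_nonneg_left h2 (by positivity)
    calc (H : ℝ) ≤ c1 * Q := hHle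
      _ ≤ 1 * Q := mul_le_mul_of_nonneg_right hc1a hQ0.le
      _ ≤ k * l ^ 2 := by linarith
  have hlk : 4 * l ≤ k := by
    have := Helper9.GW.exp_ge (t := l) p1.le
    rw [← e1] at this
    have h4 : l ≤ (1 + l / 4) ^ 2 := by nlinarith
    have h5 : (1 + l / 4) ^ 4 = (1 + l / 4) ^ 2 * (1 + l / 4) ^ 2 := by ring
    have h6 : (4 : ℝ) ≤ (1 + l / 4) ^ 2 := by nlinarith
    nlinarith
  have hk2 : 2 * (k : ℝ) ^ 3 ≤ 2 ^ k := by
    -- `k ^ 4 ≤ 2 ^ k` would do; use `exp`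
    have h1 : (2 : ℝ) ^ k = Real.exp (k * Real.log 2) := by
      rw [mul_comm, Real.exp_mul, Real.exp_log (by norm_num), Real.rpow_natCast]
    have h2 := Real.log_two_gt_d9
    have h4 : (k : ℝ) ^ 4 = Real.exp (4 * l) := by
      rw [e1, ← Real.exp_nat_mul]
      norm_num
    have h5 : 4 * l ≤ k * Real.log 2 := by
      have h6 := Helper9.GW.exp_ge (t := l) p1.le
      rw [← e1] at h6
      have h7 : 8 * l ≤ (1 + l / 4) ^ 4 := by
        have h8 : l ≤ (1 + l / 4) ^ 2 := by nlinarith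
        have h9 : (8 : ℝ) ≤ (1 + l / 4) ^ 2 := by nlinarith
        nlinarith
      nlinarith
    have h6 : (k : ℝ) ^ 4 ≤ 2 ^ k := by
      rw [h4, h1]
      exact Real.exp_le_exp.2 h5
    have h7 : (1000 : ℝ) ≤ k := by exact_mod_cast hk1000
    have h8 : 2 * (k : ℝ) ^ 3 ≤ k * (k : ℝ) ^ 3 :=
      mul_le_mul_of_nonneg_right (by linarith) (by positivity)
    calc 2 * (k : ℝ) ^ 3 ≤ k * (k : ℝ) ^ 3 := h8
      _ = (k : ℝ) ^ 4 := by ring
      _ ≤ _ := h6
  have hHbig : H ≤ 2 ^ k := by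
    have h1 : (H : ℝ) ≤ (2 : ℝ) ^ k := by
      calc (H : ℝ) ≤ k * l ^ 2 := hHk
        _ ≤ k * (k : ℝ) ^ 2 :=
          mul_le_mul_of_nonneg_left (pow_le_pow_left₀ p1.le (by linarith) 2) hk0.le
        _ = (k : ℝ) ^ 3 := by ring
        _ ≤ 2 ^ k := by
          have : 0 ≤ (k : ℝ) ^ 3 := by positivity
          linarith
    exact_mod_cast h1
  obtain ⟨b, hb⟩ := cov hpar hkH hHk
  have hsurv : ((surv k b H).card : ℝ) ≤ c0 * k := by
    refine hb.trans ?_
    have h1 : 400 * (H : ℝ) * l2 ^ 2 / (l ^ 2 * l3) ≤ 400 * c1 * k := by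
      rw [div_le_iff₀ (by positivity)]
      have h2 : c1 * Q * l2 ^ 2 = c1 * (k * l ^ 2 * l3) := by
        rw [hQ]
        field_simp
      have h4 : (H : ℝ) * l2 ^ 2 ≤ c1 * Q * l2 ^ 2 :=
        mul_le_mul_of_nonneg_right hHle (by positivity)
      nlinarith
    exact h1.trans (mul_le_mul_of_nonneg_right hc1b hk0.le)
  obtain ⟨N, hN1, hN2, hN3⟩ := step3 (hL0 k k ((le_max_left _ _).trans hKk)
    (Nat.pow_le_pow_right (by omega) (by norm_num)) le_rfl) hke (by omega) hHbig hn1 hsurv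
  exact ⟨N, H, hN1, hN2, by omega, hN3, hHgt.le⟩

/-- long runs of composite numbers in short intervals -/
theorem shortE (hcore : CoreD) : ∃ c : ℝ, 0 < c ∧ ∀ᶠ y : ℝ in atTop,
    0 < Real.log y ∧ 0 < rho y ∧ ∀ x : ℝ, y ≤ x →
    ∃ N h : ℕ, x ≤ N ∧ (N : ℝ) + h ≤ x + y ∧ (∀ m, N < m → m ≤ N + h → ¬ m.Prime) ∧
      c * (Real.log y * rho y) ≤ h := by
  obtain ⟨c, hc, K, hK⟩ := gapsE hcore
  refine ⟨c / 1024, by positivity, ?_⟩
  filter_upwards [eventually_ge_atTop ((2 : ℝ) ^ (32 * K + 100))] with y hy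
  have hy0 : 0 < y := lt_of_lt_of_le (by positivity) hy
  have hlog2 := Real.log_two_lt_d9
  have hlog2' := Real.log_two_gt_d9
  set e := Nat.log 2 ⌊y / 2⌋₊ with he
  have hbig : (2 : ℝ) ^ 100 ≤ 2 ^ (32 * K + 100) :=
    pow_le_pow_right₀ (by norm_num) (by omega)
  have hfy : 1 ≤ ⌊y / 2⌋₊ := Nat.le_floor (by push_cast; linarith)
  have he1 : (2 : ℝ) ^ e ≤ y / 2 := by
    have h1 : 2 ^ e ≤ ⌊y / 2⌋₊ := Nat.pow_log_le_self 2 (by omega)
    have h2 : ((2 ^ e : ℕ) : ℝ) ≤ (⌊y / 2⌋₊ : ℝ) := by exact_mod_cast h1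
    push_cast at h2
    exact h2.trans (Nat.floor_le (by linarith))
  have he2 : y < (2 : ℝ) ^ (e + 2) := by
    have h1 : ⌊y / 2⌋₊ + 1 ≤ 2 ^ (e + 1) := Nat.lt_pow_succ_log_self (by norm_num) _
    have h2 : ((⌊y / 2⌋₊ + 1 : ℕ) : ℝ) ≤ ((2 ^ (e + 1) : ℕ) : ℝ) := by exact_mod_cast h1
    push_cast at h2
    have h3 := Nat.lt_floor_add_one (y / 2)
    have h4 : (2 : ℝ) ^ (e + 2) = 2 * 2 ^ (e + 1) := by rw [pow_succ]; ring
    rw [h4]
    linarith
  have heK : 32 * K + 98 ≤ e := by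
    have h1 : (2 : ℝ) ^ (32 * K + 100) < (2 : ℝ) ^ (e + 2) := lt_of_le_of_lt hy he2
    have h2 := (pow_lt_pow_iff_right₀ (by norm_num : (1 : ℝ) < 2)).1 h1
    omega
  set k := e / 32 with hk
  have hkK : K ≤ k := by omega
  have hlogy2 : Real.log y ≤ ((e : ℝ) + 2) * Real.log 2 := by
    have h1 := Real.log_le_log hy0 he2.le
    rw [Real.log_pow] at h1
    push_cast at h1
    exact h1
  have hlogy1 : ((e : ℝ) + 1) * Real.log 2 ≤ Real.log y := by
    have h1 : (2 : ℝ) ^ (e + 1) ≤ y := by rw [pow_succ]; linarith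
    have h2 := Real.log_le_log (by positivity) h1
    rw [Real.log_pow] at h2
    push_cast at h2
    exact h2
  have he0 : (0 : ℝ) ≤ e := Nat.cast_nonneg e
  have hke : (e : ℝ) ≤ 32 * k + 31 := by
    have : e ≤ 32 * k + 31 := by omega
    exact_mod_cast this
  have hke2 : 32 * (k : ℝ) ≤ e := by
    have : 32 * k ≤ e := by omega
    exact_mod_cast this
  have hk0 : (0 : ℝ) ≤ k := Nat.cast_nonneg k
  have hky : (k : ℝ) ≤ Real.log y := by nlinarith
  -- the size facts do not depend on `x`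
  obtain ⟨k1, k2, k3, k4, -⟩ := hK e k hkK hk (k + 2 ^ k + 1) (by omega)
  have hk1000 : (1000 : ℝ) ≤ k := by exact_mod_cast k1
  have hyk : Real.log y ≤ 64 * k := by
    have h1 : ((e : ℝ) + 2) * Real.log 2 ≤ 32 * k + 33 := by nlinarith
    linarith
  obtain ⟨r1, r2, r3⟩ := rho_le (t := y) rfl rfl rfl (by linarith) hky hyk k2 k3 k4
  refine ⟨r2, r3, fun x hyx => ?_⟩
  have hx0 : 0 < x := by linarith
  set n1 := ⌈x⌉₊ with hn1
  have hxn : x ≤ n1 := Nat.le_ceil x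
  have hnx : (n1 : ℝ) < x + 1 := Nat.ceil_lt_add_one hx0.le
  have hkn : k + 2 ^ k < n1 := by
    have h1 : k < 2 ^ k := Nat.lt_two_pow_self
    have h2 : k + 2 ^ k < 2 ^ (k + 1) := by rw [pow_succ]; omega
    have h3 : 2 ^ (k + 1) ≤ 2 ^ e := Nat.pow_le_pow_right (by norm_num) (by omega)
    have h4 : ((2 ^ e : ℕ) : ℝ) ≤ n1 := by push_cast; linarith
    have h5 : 2 ^ e ≤ n1 := by exact_mod_cast h4
    omega
  obtain ⟨-, -, -, -, N, h, hN1, hN2, hh1, hN3, hN4⟩ := hK e k hkK hk n1 hkn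
  refine ⟨N, h, ?_, ?_, hN3, ?_⟩
  · have : (n1 : ℝ) ≤ N := by exact_mod_cast hN1
    linarith
  · have h1 : ((N + h : ℕ) : ℝ) ≤ ((n1 + 2 ^ e : ℕ) : ℝ) := by exact_mod_cast hN2
    push_cast at h1
    linarith
  · have h1 : c / 1024 * (Real.log y * rho y) ≤ ((h : ℝ) + 1) / 2 := by
      calc c / 1024 * (Real.log y * rho y) ≤ c / 1024 * (512 * _) :=
            mul_le_mul_of_nonneg_left r1 (by positivity)
        _ = (c * _) / 2 := by ring
        _ ≤ _ := div_le_div_of_nonneg_right hN4 (by norm_num)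
    have h2 : (1 : ℝ) ≤ h := by exact_mod_cast hh1
    linarith

end Pool.Agent.Helper83.RWR
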