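import Pool.Agent.Helper83.RWR.Cov

/-!
# From the core theorem of repelling weights to long prime gaps
-/

set_option autoImplicit false

namespace Pool.Agent.Helper83.RWR

open Finset Nat

/-- the core theorem (project RS) -/
def CoreStmt : Prop :=
  ∃ c : ℝ, 0 < c ∧ ∃ L0 : ℕ, ∀ L : ℕ, L0 ≤ L → ∀ (M : ℕ) (n0 : ℤ) (B : Finset ℤ)
    (T : ℕ), (∀ q : ℕ, q.Prime → L ^ 6 < q → Nat.Coprime M q) → (∀ b ∈ B, |b| ≤ 2 ^ L) →
    (B.card : ℝ) ≤ c * L → 2 ^ (L / 3) ≤ T →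
    ∃ t < T, ∀ b ∈ B, ∃ q : ℕ, q.Prime ∧ L ^ 6 < q ∧ q ≤ 2 ^ (L / 48) ∧
      (q : ℤ) ∣ n0 + M * t - b

theorem step {c : ℝ} {L : ℕ}
    (hcore : ∀ (M : ℕ) (n0 : ℤ) (B : Finset ℤ)
    (T : ℕ), (∀ q : ℕ, q.Prime → L ^ 6 < q → Nat.Coprime M q) → (∀ b ∈ B, |b| ≤ 2 ^ L) →
    (B.card : ℝ) ≤ c * L → 2 ^ (L / 3) ≤ T →
    ∃ t < T, ∀ b ∈ B, ∃ q : ℕ, q.Prime ∧ L ^ 6 < q ∧ q ≤ 2 ^ (L / 48) ∧
      (q : ℤ) ∣ n0 + M * t - b)
    {k b h : ℕ} (hkL : 32 * k ≤ L) (hL : 100 ≤ L) (hh : h ≤ 2 ^ (L / 2))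
    (hs : ((surv k b h).card : ℝ) ≤ c * L) :
    ∃ n : ℕ, 2 ^ (L - 1) ≤ n ∧ n ≤ 2 ^ L ∧ ∀ m, 1 ≤ m → m ≤ h → ¬ (n - m).Prime := by
  set M := primorial k with hM
  have hMpos : 0 < M := primorial_pos k
  have hM4 : M ≤ 4 ^ k := primorial_le_four_pow k
  have hM2 : M ≤ 2 ^ (L / 16) := by
    refine hM4.trans ?_
    rw [show (4 : ℕ) = 2 ^ 2 by norm_num, ← pow_mul]
    exact Nat.pow_le_pow_right (by norm_num) (by omega)
  set n0 : ℕ := M * (2 ^ (L - 1) / M + 1) + b % M with hn0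
  have hn0a : 2 ^ (L - 1) ≤ n0 := by
    have h1 := Nat.div_add_mod (2 ^ (L - 1)) M
    have h2 := Nat.mod_lt (2 ^ (L - 1)) hMpos
    have h3 : M * (2 ^ (L - 1) / M + 1) = M * (2 ^ (L - 1) / M) + M := by ring
    omega
  have hn0b : n0 ≤ 2 ^ (L - 1) + 2 * M := by
    have h1 := Nat.mul_div_le (2 ^ (L - 1)) M
    have h2 := Nat.mod_lt b hMpos
    have h3 : M * (2 ^ (L - 1) / M + 1) = M * (2 ^ (L - 1) / M) + M := by ring
    omega
  have hn0c : ∀ p, p ∣ M → ∀ t : ℕ, n0 + M * t ≡ b [MOD p] := by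
    intro p hp t
    have h1 : n0 + M * t ≡ b [MOD M] := by
      rw [hn0]
      unfold Nat.ModEq
      rw [show M * (2 ^ (L - 1) / M + 1) + b % M + M * t =
        b % M + M * (2 ^ (L - 1) / M + 1 + t) by ring, Nat.add_mul_mod_self_left, Nat.mod_mod]
    exact h1.of_dvd hp
  set B : Finset ℤ := (surv k b h).image (fun m : ℕ => (m : ℤ)) with hB
  obtain ⟨t, ht, hT⟩ := hcore M n0 B (2 ^ (L / 3)) (by
      intro q hq hLq
      rw [Nat.coprime_comm, Nat.Prime.coprime_iff_not_dvd hq]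
      intro hd
      rw [hM, hq.dvd_primorial_iff] at hd
      have h2 : L ≤ L ^ 6 := Nat.le_self_pow (by norm_num) L
      omega) (by
      intro z hz
      rw [hB, mem_image] at hz
      obtain ⟨m, hm, rfl⟩ := hz
      unfold surv at hm
      rw [mem_filter, mem_Icc] at hm
      rw [Nat.abs_cast]
      have h1 : m ≤ 2 ^ L := hm.1.2.trans (hh.trans (Nat.pow_le_pow_right (by norm_num) (by omega)))
      exact_mod_cast h1) (by
      refine le_trans ?_ hs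
      exact_mod_cast Finset.card_image_le) le_rfl
  have hMT : M * t ≤ 2 ^ (L / 16 + L / 3) := by
    rw [pow_add]
    exact Nat.mul_le_mul hM2 ht.le
  have hpow1 : 2 ^ (L / 16 + L / 3) ≤ 2 ^ (L - 2) / 2 := by
    have h1 : 2 ^ (L - 2) / 2 = 2 ^ (L - 3) := by
      rw [show L - 2 = (L - 3) + 1 by omega, pow_succ]
      simp
    rw [h1]
    exact Nat.pow_le_pow_right (by norm_num) (by omega)
  have hpow2 : 2 * M ≤ 2 ^ (L - 2) / 2 := by
    have h1 : 2 ^ (L - 2) / 2 = 2 ^ (L - 3) := by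
      rw [show L - 2 = (L - 3) + 1 by omega, pow_succ]
      simp
    rw [h1]
    calc 2 * M ≤ 2 * 2 ^ (L / 16) := Nat.mul_le_mul_left _ hM2
      _ = 2 ^ (L / 16 + 1) := by rw [pow_succ]; ring
      _ ≤ _ := Nat.pow_le_pow_right (by norm_num) (by omega)
  have hpow3 : 2 ^ L = 2 ^ (L - 1) + 2 * 2 ^ (L - 2) := by
    rw [show L = (L - 2) + 2 by omega]
    simp only [Nat.add_sub_cancel]
    rw [show L - 2 + 2 - 1 = (L - 2) + 1 by omega, pow_add, pow_add]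
    ring
  have hpow4 : k + 2 ^ (L / 48) + 2 ^ (L / 2) < 2 ^ (L - 1) := by
    have h1 : k ≤ 2 ^ (L / 2) := by
      have := (Nat.lt_two_pow_self (n := L / 2)).le
      omega
    have h2 : 2 ^ (L / 48) ≤ 2 ^ (L / 2) := Nat.pow_le_pow_right (by norm_num) (by omega)
    have h3 : 2 ^ (L / 2 + 2) ≤ 2 ^ (L - 1) := Nat.pow_le_pow_right (by norm_num) (by omega)
    have h4 : 2 ^ (L / 2 + 2) = 4 * 2 ^ (L / 2) := by rw [pow_add]; ring
    have h5 : 0 < 2 ^ (L / 2) := by positivity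
    omega
  refine ⟨n0 + M * t, by omega, by omega, fun m hm1 hm2 hp => ?_⟩
  have hbig : k + 2 ^ (L / 48) < n0 + M * t - m := by omega
  have hmn : m ≤ n0 + M * t := by
    by_contra hcon
    rw [Nat.sub_eq_zero_of_le (by omega)] at hbig
    exact absurd hbig (Nat.not_lt_zero _)
  have hbig2 : k < n0 + M * t - m := lt_of_le_of_lt (Nat.le_add_right _ _) hbig
  have hbig3 : 2 ^ (L / 48) < n0 + M * t - m := lt_of_le_of_lt (Nat.le_add_left _ _) hbig
  by_cases hms : m ∈ surv k b h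
  · obtain ⟨q, hq1, hq2, hq3, hq4⟩ := hT m (mem_image.2 ⟨m, hms, rfl⟩)
    have h1 : q ∣ n0 + M * t - m := by
      have h2 : ((n0 : ℤ) + M * t - m) = ((n0 + M * t - m : ℕ) : ℤ) := by
        rw [Nat.cast_sub hmn]
        push_cast
        ring
      rw [h2] at hq4
      exact_mod_cast hq4
    have h2 := (Nat.prime_dvd_prime_iff_eq hq1 hp).1 h1
    rw [← h2] at hbig3
    exact absurd hq3 (not_le.2 hbig3)
  · unfold surv at hms
    rw [mem_filter, mem_Icc] at hms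
    push Not at hms
    obtain ⟨p, hp1, hp2⟩ := hms ⟨hm1, hm2⟩
    obtain ⟨h3, h4, h5⟩ := Helper52.mem_pr.1 hp1
    have h6 : p ∣ M := by
      rw [hM, h5.dvd_primorial_iff]
      exact h4
    have h7 : m ≡ n0 + M * t [MOD p] := hp2.trans (hn0c p h6 t).symm
    have h8 : p ∣ n0 + M * t - m := (Nat.modEq_iff_dvd' hmn).1 h7
    have h9 := (Nat.prime_dvd_prime_iff_eq h5 hp).1 h8
    rw [← h9] at hbig2
    exact absurd h4 (not_le.2 hbig2)

/-- the primes around a run of composite numbers -/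
theorem consecutive {n h : ℕ} (hn : 2 * h + 10 ≤ n) (hc : ∀ m, 1 ≤ m → m ≤ h → ¬ (n - m).Prime) :
    ∃ j : ℕ, n ≤ 2 * (Nat.nth Nat.Prime j) + 2 * h + 2 ∧ Nat.nth Nat.Prime j < n ∧
      Nat.nth Nat.Prime (j + 1) ≤ 2 * Nat.nth Nat.Prime j ∧
      Nat.nth Nat.Prime j + h < Nat.nth Nat.Prime (j + 1) := by
  have hinf := Nat.infinite_setOfPred_prime
  set N := n - h - 1 with hN
  obtain ⟨r, hr1, hr2, hr3⟩ := Nat.exists_prime_lt_and_le_two_mul (N / 2) (by omega)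
  have hrN : r ≤ N := by omega
  set J := Nat.count Nat.Prime (N + 1) with hJ
  have hrc : Nat.count Nat.Prime r < J := Nat.count_strict_mono hr1 (by omega)
  have hJ1 : 1 ≤ J := by omega
  have hlow : r ≤ Nat.nth Nat.Prime (J - 1) := by
    calc r = Nat.nth Nat.Prime (Nat.count Nat.Prime r) := (Nat.nth_count hr1).symm
      _ ≤ _ := (Nat.nth_strictMono hinf).monotone (by omega)
  have hup : Nat.nth Nat.Prime (J - 1) < N + 1 := Nat.nth_lt_of_lt_count (by omega)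
  have hnext : N + 1 ≤ Nat.nth Nat.Prime J := (Nat.count_le_iff_le_nth hinf).1 le_rfl
  have hnext2 : n ≤ Nat.nth Nat.Prime J := by
    by_contra hlt
    push Not at hlt
    refine hc (n - Nat.nth Nat.Prime J) (by omega) (by omega) ?_
    rw [Nat.sub_sub_self hlt.le]
    exact Nat.nth_mem_of_infinite hinf J
  refine ⟨J - 1, by omega, by omega, ?_, ?_⟩
  · obtain ⟨s, hs1, hs2, hs3⟩ := Nat.exists_prime_lt_and_le_two_mul (Nat.nth Nat.Prime (J - 1))
      (by have := hr1.pos; omega)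
    refine le_trans ?_ hs3
    rw [← Nat.nth_count hs1]
    apply (Nat.nth_strictMono hinf).monotone
    have h1 : J - 1 < Nat.count Nat.Prime s := by
      rw [← Nat.nth_count hs1] at hs2
      exact (Nat.nth_lt_nth hinf).1 hs2
    omega
  · rw [Nat.sub_add_cancel hJ1]
    omega

end Pool.Agent.Helper83.RWR
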