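import Pool.Agent.Helper83.RWR.Cov

/-!
# From the core theorem of repelling weights to runs of composite numbers in short intervals
-/

set_option autoImplicit false

namespace Pool.Agent.Helper83.RWR

open Finset Nat

/-- the core theorem with a free level (project RS), conclusion for given `L`, `d` -/
def CoreAt (c : ℝ) (L d : ℕ) : Prop :=
  ∀ (M : ℕ) (n0 : ℤ) (B : Finset ℤ) (T : ℕ),
    (∀ q : ℕ, q.Prime → L ^ 6 < q → Nat.Coprime M q) → (∀ b ∈ B, |b| ≤ 2 ^ L) →
    (B.card : ℝ) ≤ c * d → 2 ^ (8 * d) ≤ T →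
    ∃ t < T, ∀ b ∈ B, ∃ q : ℕ, q.Prime ∧ L ^ 6 < q ∧ q ≤ 2 ^ d ∧
      (q : ℤ) ∣ n0 + M * (t : ℕ) - b

/-- a run of composite numbers in `(n1, n1 + 2 ^ e]` -/
theorem step2 {c : ℝ} {L e k b h n1 : ℕ} (hcore : CoreAt c L k)
    (hk : k = e / 32) (he : 400 ≤ e) (heL : e ≤ L) (hh : h ≤ 2 ^ (e / 2))
    (hn1 : k + 2 ^ k < n1)
    (hs : ((surv k b h).card : ℝ) ≤ c * k) :
    ∃ N : ℕ, n1 ≤ N ∧ N + h ≤ n1 + 2 ^ e ∧ ∀ m, N < m → m ≤ N + h → ¬ m.Prime := by
  set M := primorial k with hM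
  have hMpos : 0 < M := primorial_pos k
  have hM4 : M ≤ 4 ^ k := primorial_le_four_pow k
  have hM2 : M ≤ 2 ^ (e / 16) := by
    refine hM4.trans ?_
    rw [show (4 : ℕ) = 2 ^ 2 by norm_num, ← pow_mul]
    exact Nat.pow_le_pow_right (by norm_num) (by omega)
  set A := n1 + h + 1 with hA
  set n0 : ℕ := M * (A / M + 1) + b % M with hn0
  have hn0a : A ≤ n0 := by
    have h1 := Nat.div_add_mod A M
    have h2 := Nat.mod_lt A hMpos
    have h3 : M * (A / M + 1) = M * (A / M) + M := by ring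
    omega
  have hn0b : n0 ≤ A + 2 * M := by
    have h1 := Nat.mul_div_le A M
    have h2 := Nat.mod_lt b hMpos
    have h3 : M * (A / M + 1) = M * (A / M) + M := by ring
    omega
  have hn0c : ∀ p, p ∣ M → ∀ t : ℕ, n0 + M * t ≡ b [MOD p] := by
    intro p hp t
    have h1 : n0 + M * t ≡ b [MOD M] := by
      rw [hn0]
      unfold Nat.ModEq
      rw [show M * (A / M + 1) + b % M + M * t =
        b % M + M * (A / M + 1 + t) by ring, Nat.add_mul_mod_self_left, Nat.mod_mod]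
    exact h1.of_dvd hp
  set B : Finset ℤ := (surv k b h).image (fun m : ℕ => (m : ℤ)) with hB
  obtain ⟨t, ht, hT⟩ := hcore M n0 B (2 ^ (8 * k)) (by
      intro q hq hLq
      rw [Nat.coprime_comm, Nat.Prime.coprime_iff_not_dvd hq]
      intro hd
      rw [hM, hq.dvd_primorial_iff] at hd
      have h2 : L ≤ L ^ 6 := Nat.le_self_pow (by norm_num) L
      omega) (by
      intro z hz
      rw [hB, mem_image] at hz
      obtain ⟨m, hm, rfl⟩ := hz
      unfold surv at hm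
      rw [mem_filter, mem_Icc] at hm
      rw [Nat.abs_cast]
      have h1 : m ≤ 2 ^ L := hm.1.2.trans (hh.trans (Nat.pow_le_pow_right (by norm_num) (by omega)))
      exact_mod_cast h1) (by
      refine le_trans ?_ hs
      exact_mod_cast Finset.card_image_le) le_rfl
  have hMT : M * t ≤ 2 ^ (e / 16 + 8 * k) := by
    rw [pow_add]
    exact Nat.mul_le_mul hM2 ht.le
  have hpow0 : 2 ^ e = 8 * 2 ^ (e - 3) := by
    rw [show e = (e - 3) + 3 by omega, pow_add]
    simp only [Nat.add_sub_cancel]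
    ring
  have hpow1 : 2 ^ (e / 16 + 8 * k) ≤ 2 ^ (e - 3) :=
    Nat.pow_le_pow_right (by norm_num) (by omega)
  have hpow2 : 2 * M ≤ 2 ^ (e - 3) := by
    calc 2 * M ≤ 2 * 2 ^ (e / 16) := Nat.mul_le_mul_left _ hM2
      _ = 2 ^ (e / 16 + 1) := by rw [pow_succ]; ring
      _ ≤ _ := Nat.pow_le_pow_right (by norm_num) (by omega)
  have hpow3 : h ≤ 2 ^ (e - 3) := hh.trans (Nat.pow_le_pow_right (by norm_num) (by omega))
  have hpow4 : 1 ≤ 2 ^ (e - 3) := Nat.one_le_two_pow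
  refine ⟨n0 + M * t - h - 1, by omega, by omega, fun r hr1 hr2 hp => ?_⟩
  -- `r = n - m`
  obtain ⟨m, hm1, hm2, hmr⟩ : ∃ m, 1 ≤ m ∧ m ≤ h ∧ n0 + M * t - m = r :=
    ⟨n0 + M * t - r, by omega, by omega, by omega⟩
  have hmn : m ≤ n0 + M * t := by omega
  have hN1 : n1 < r := by omega
  have hbig2 : k < r := (lt_of_le_of_lt (Nat.le_add_right _ _) hn1).trans hN1
  have hbig3 : 2 ^ k < r := (lt_of_le_of_lt (Nat.le_add_left _ _) hn1).trans hN1
  by_cases hms : m ∈ surv k b h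
  · obtain ⟨q, hq1, hq2, hq3, hq4⟩ := hT m (mem_image.2 ⟨m, hms, rfl⟩)
    have h1 : q ∣ r := by
      have h2 : ((n0 : ℤ) + M * t - m) = ((n0 + M * t - m : ℕ) : ℤ) := by
        rw [Nat.cast_sub hmn]
        push_cast
        ring
      rw [h2, hmr] at hq4
      exact_mod_cast hq4
    have h2 := (Nat.prime_dvd_prime_iff_eq hq1 hp).1 h1
    rw [← h2] at hbig3
    exact absurd hq3 (not_le.2 hbig3)
  · unfold surv at hms
    rw [mem_filter, mem_Icc] at hms
    push Not at hms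
    obtain ⟨p, hp1, hp2⟩ := hms ⟨hm1, hm2⟩
    obtain ⟨h3, h4, h5⟩ := Helper52.mem_pr.1 hp1
    have h6 : p ∣ M := by
      rw [hM, h5.dvd_primorial_iff]
      exact h4
    have h7 : m ≡ n0 + M * t [MOD p] := hp2.trans (hn0c p h6 t).symm
    have h8 : p ∣ n0 + M * t - m := (Nat.modEq_iff_dvd' hmn).1 h7
    rw [hmr] at h8
    have h9 := (Nat.prime_dvd_prime_iff_eq h5 hp).1 h8
    rw [← h9] at hbig2
    exact absurd h4 (not_le.2 hbig2)

/-- the primes around a run of composite numbers -/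
theorem consecutive2 {N h : ℕ} (hN : 10 ≤ N) (hc : ∀ m, N < m → m ≤ N + h → ¬ m.Prime) :
    ∃ j : ℕ, N ≤ 2 * (Nat.nth Nat.Prime j) ∧ Nat.nth Nat.Prime j ≤ N ∧
      N + h < Nat.nth Nat.Prime (j + 1) ∧
      Nat.nth Nat.Prime (j + 1) ≤ 2 * Nat.nth Nat.Prime j := by
  have hinf := Nat.infinite_setOfPred_prime
  obtain ⟨r, hr1, hr2, hr3⟩ := Nat.exists_prime_lt_and_le_two_mul (N / 2) (by omega)
  have hrN : r ≤ N := by omega
  set J := Nat.count Nat.Prime (N + 1) with hJ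
  have hrc : Nat.count Nat.Prime r < J := Nat.count_strict_mono hr1 (by omega)
  have hJ1 : 1 ≤ J := by omega
  have hlow : r ≤ Nat.nth Nat.Prime (J - 1) := by
    calc r = Nat.nth Nat.Prime (Nat.count Nat.Prime r) := (Nat.nth_count hr1).symm
      _ ≤ _ := (Nat.nth_strictMono hinf).monotone (by omega)
  have hup : Nat.nth Nat.Prime (J - 1) < N + 1 := Nat.nth_lt_of_lt_count (by omega)
  have hnext : N + 1 ≤ Nat.nth Nat.Prime J := (Nat.count_le_iff_le_nth hinf).1 le_rfl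
  have hnext2 : N + h < Nat.nth Nat.Prime J := by
    by_contra hlt
    push Not at hlt
    exact hc (Nat.nth Nat.Prime J) (by omega) hlt (Nat.nth_mem_of_infinite hinf J)
  refine ⟨J - 1, by omega, by omega, ?_, ?_⟩
  · rw [Nat.sub_add_cancel hJ1]
    omega
  · obtain ⟨s, hs1, hs2, hs3⟩ := Nat.exists_prime_lt_and_le_two_mul (Nat.nth Nat.Prime (J - 1))
      (by have := hr1.pos; omega)
    refine le_trans ?_ hs3
    rw [← Nat.nth_count hs1]
    apply (Nat.nth_strictMono hinf).monotone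
    have h1 : J - 1 < Nat.count Nat.Prime s := by
      rw [← Nat.nth_count hs1] at hs2
      exact (Nat.nth_lt_nth hinf).1 hs2
    omega

end Pool.Agent.Helper83.RWR
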